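import Pool.Agent.Helper22.Enum

set_option autoImplicit false

/-!
Arithmetic of natural numbers in polynomial time.
-/

namespace Pool.Agent.Helper6.WB

open Turing Function N487b59b3 N68a2faeb Pool.Agent.Helper22 Computability

section

variable {α β γ δ : Type} [N487b59b3 α] [N487b59b3 β] [N487b59b3 γ] [N487b59b3 δ]

/-- change of type without change of code -/
theorem FP.recode {f : α → β} (hf : FP f) {g : α → γ}
    (h : ∀ a, bitEncode (g a) = bitEncode (f a)) : FP g :=
  hf.mono (by rintro x z ⟨a, rfl, rfl⟩; exact ⟨a, rfl, h a⟩)

theorem encNat (n : ℕ) : bitEncode n = encodeNat n := rfl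

/-- the bits of a number -/
theorem FP.bits {f : α → ℕ} (hf : FP f) : FP fun a => encodeNat (f a) := by
  have h : FP fun n : ℕ => encodeNat n := PT.quote.mono (by
    rintro x z ⟨a, rfl, rfl⟩
    exact enc_bits _)
  exact h.comp hf

/-- a number from its bits -/
theorem FP.ofBits {f : α → ℕ} (hf : FP fun a => encodeNat (f a)) : FP f :=
  (PT.comp hf PT.unquote).mono (by
    rintro x z ⟨a, rfl, rfl⟩
    exact ⟨bitEncode (encodeNat (f a)), ⟨a, rfl, rfl⟩, enc_bits _⟩)

theorem encodeNat_bit (b : Bool) (n : ℕ) :
    encodeNat (Nat.bit b n) = if n = 0 ∧ b = false then [] else b :: encodeNat n := by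
  have h : ((Nat.bit b n : ℕ) : Num) = cond b Num.bit1 Num.bit0 (n : Num) := by
    rw [← Num.ofNat'_eq, Num.ofNat'_bit, Num.ofNat'_eq]
  unfold encodeNat
  rw [h]
  have h0 : (n : Num) = 0 ↔ n = 0 := by
    constructor
    · intro h
      have := congrArg (fun m : Num => (m : ℕ)) h
      simpa using this
    · rintro rfl; rfl
  rcases hn : (n : Num) with _ | p
  · have : n = 0 := h0.mp hn
    subst this
    cases b <;> simp [Num.bit1, Num.bit0, encodeNum, encodePosNum]
  · have : n ≠ 0 := by
      intro e
      rw [h0.mpr e] at hn
      cases hn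
    cases b <;> simp [Num.bit1, Num.bit0, encodeNum, encodePosNum, this]

theorem sz_nat (n : ℕ) : sz n = Nat.size n := by
  have h : ∀ n : ℕ, (encodeNat n).length = Nat.size n := by
    intro n
    induction n using Nat.binaryRec' with
    | zero => rfl
    | bit b n hb ih =>
      rw [encodeNat_bit]
      by_cases h0 : n = 0
      · have := hb h0
        subst h0 this
        simp [encodeNat, encodeNum]
      · rw [if_neg (fun h => h0 h.1), List.length_cons, ih, Nat.size_bit (by
          rw [Ne, Nat.bit_eq_zero_iff]
          exact fun h => h0 h.1)]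
  exact h n

/-- Horner's rule -/
def hor (v : ℕ) (l : List Bool) : ℕ := l.foldl (fun v b => Nat.bit b v) v

/-- one step of the computation of the code of a number from its digits -/
def canonStep (acc : List Bool) (b : Bool) : List Bool :=
  if acc.isEmpty && !b then [] else b :: acc

theorem canon_eq (l : List Bool) (v : ℕ) :
    l.foldl canonStep (encodeNat v) = encodeNat (hor v l) := by
  induction l generalizing v with
  | nil => rfl
  | cons b l ih =>
    have h : canonStep (encodeNat v) b = encodeNat (Nat.bit b v) := by
      rw [encodeNat_bit, canonStep]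
      have h0 : (encodeNat v).isEmpty = decide (v = 0) := by
        rw [Bool.eq_iff_iff, List.isEmpty_iff, decide_eq_true_iff]
        constructor
        · intro h
          have := sz_nat v
          rw [sz, encNat, h] at this
          exact Nat.size_eq_zero.mp this.symm
        · rintro rfl; rfl
      rw [h0]
      cases b <;> by_cases hv : v = 0 <;> simp [hv]
    rw [List.foldl_cons, h, ih]
    rfl

theorem canonStep_length (l acc : List Bool) :
    (l.foldl canonStep acc).length ≤ l.length + acc.length := by
  induction l generalizing acc with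
  | nil => simp
  | cons b l ih =>
    rw [List.foldl_cons]
    refine (ih _).trans ?_
    unfold canonStep
    split_ifs <;> simp <;> omega

theorem FP.canon {f : α → List Bool} (hf : FP f) : FP fun a => hor 0 (f a) := by
  have h1 : FP fun p : List Bool × List Bool => p.1.foldl canonStep p.2 := by
    refine FP.foldl ?_ (B := fun n => n) (by fun_prop) ?_
    · unfold canonStep
      fun_prop
    · intro l a
      have := canonStep_length l a
      simp only [sz_bits]
      omega
  apply FP.ofBits
  have h2 := h1.comp (hf.pair (FP.const ([] : List Bool)))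
  refine (congrArg FP (funext fun a => ?_)).mp h2
  exact canon_eq (f a) 0

/-! ## Addition -/

/-- value of a list of digits, least significant first -/
def val (l : List Bool) : ℕ := l.foldr (fun b v => Nat.bit b v) 0

@[simp] theorem val_nil : val [] = 0 := rfl

@[simp] theorem val_cons (b : Bool) (l : List Bool) : val (b :: l) = Nat.bit b (val l) := rfl

theorem val_encodeNat (n : ℕ) : val (encodeNat n) = n := by
  induction n using Nat.binaryRec' with
  | zero => rfl
  | bit b n hb ih =>
    rw [encodeNat_bit]
    by_cases h0 : n = 0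
    · have := hb h0
      subst h0 this
      rfl
    · rw [if_neg (fun h => h0 h.1), val_cons, ih]

theorem val_lt (l : List Bool) : val l < 2 ^ l.length := by
  induction l with
  | nil => simp
  | cons b l ih =>
    rw [val_cons, List.length_cons, pow_succ, Nat.bit_val]
    cases b <;> simp <;> omega

theorem hor_eq (v : ℕ) (l : List Bool) : hor v l = v * 2 ^ l.length + hor 0 l := by
  induction l generalizing v with
  | nil => simp [hor]
  | cons b l ih =>
    have e : ∀ v, hor v (b :: l) = hor (Nat.bit b v) l := fun _ => rfl
    rw [e, e, ih, ih (Nat.bit b 0), List.length_cons, pow_succ, Nat.bit_val, Nat.bit_val]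
    ring

theorem hor_cons (b : Bool) (l : List Bool) : hor 0 (b :: l) = b.toNat * 2 ^ l.length + hor 0 l := by
  have e : hor 0 (b :: l) = hor (Nat.bit b 0) l := rfl
  rw [e, hor_eq, Nat.bit_val]
  simp

theorem hor_lt (l : List Bool) : hor 0 l < 2 ^ l.length := by
  induction l with
  | nil => simp [hor]
  | cons b l ih =>
    rw [hor_cons, List.length_cons, pow_succ]
    cases b <;> simp <;> omega

/-- state of the addition: carry, rests of the arguments, digits of the result, most significant
first -/
abbrev AddSt := Bool × (List Bool × (List Bool × List Bool))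

/-- one step of the addition -/
def addStep (s : AddSt) : AddSt :=
  ((s.1 && s.2.1.headD false) || (s.1 && s.2.2.1.headD false) ||
      (s.2.1.headD false && s.2.2.1.headD false),
    (s.2.1.tail, (s.2.2.1.tail,
      ((s.1 == (s.2.1.headD false == s.2.2.1.headD false)) :: s.2.2.2))))

theorem addStep_inv (s : AddSt) :
    hor 0 (addStep s).2.2.2 + 2 ^ (addStep s).2.2.2.length *
      ((addStep s).1.toNat + val (addStep s).2.1 + val (addStep s).2.2.1) =
    hor 0 s.2.2.2 + 2 ^ s.2.2.2.length * (s.1.toNat + val s.2.1 + val s.2.2.1) := by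
  obtain ⟨c, x, y, o⟩ := s
  have hx : val x = (x.headD false).toNat + 2 * val x.tail := by
    cases x with
    | nil => rfl
    | cons b x => simp [Nat.bit_val]; ring
  have hy : val y = (y.headD false).toNat + 2 * val y.tail := by
    cases y with
    | nil => rfl
    | cons b y => simp [Nat.bit_val]; ring
  simp only [addStep]
  rw [hx, hy, hor_cons, List.length_cons, pow_succ]
  generalize x.headD false = p
  generalize y.headD false = q
  cases c <;> cases p <;> cases q <;> simp <;> ring

theorem addStep_iter (n : ℕ) (s : AddSt) :
    hor 0 (addStep^[n] s).2.2.2 + 2 ^ (addStep^[n] s).2.2.2.length *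
      ((addStep^[n] s).1.toNat + val (addStep^[n] s).2.1 + val (addStep^[n] s).2.2.1) =
    hor 0 s.2.2.2 + 2 ^ s.2.2.2.length * (s.1.toNat + val s.2.1 + val s.2.2.1) := by
  induction n with
  | zero => rfl
  | succ n ih => rw [Function.iterate_succ_apply', addStep_inv, ih]

theorem addStep_iter' (n : ℕ) (s : AddSt) :
    (addStep^[n] s).2.1 = s.2.1.drop n ∧ (addStep^[n] s).2.2.1 = s.2.2.1.drop n ∧
      (addStep^[n] s).2.2.2.length = n + s.2.2.2.length := by
  induction n with
  | zero => exact ⟨rfl, rfl, by simp⟩
  | succ n ih =>
    obtain ⟨h1, h2, h3⟩ := ih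
    rw [Function.iterate_succ_apply']
    refine ⟨?_, ?_, ?_⟩
    · simp only [addStep]
      rw [h1, List.tail_drop]
    · simp only [addStep]
      rw [h2, List.tail_drop]
    · simp only [addStep, List.length_cons]
      omega

theorem addStep_final (x y : List Bool) (n : ℕ) (hx : x.length ≤ n) (hy : y.length ≤ n) :
    hor 0 (addStep^[n + 1] (false, (x, (y, [])))).2.2.2 = val x + val y := by
  have h1 := addStep_iter (n + 1) (false, (x, (y, [])))
  obtain ⟨h2, h3, h4⟩ := addStep_iter' (n + 1) (false, (x, (y, [])))
  simp only [List.length_nil, add_zero] at h4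
  have h5 : (addStep^[n + 1] (false, (x, (y, [])))).2.1 = [] := by
    rw [h2]; exact List.drop_eq_nil_of_le (by simp; omega)
  have h6 : (addStep^[n + 1] (false, (x, (y, [])))).2.2.1 = [] := by
    rw [h3]; exact List.drop_eq_nil_of_le (by simp; omega)
  rw [h5, h6, h4] at h1
  have h7 : val x < 2 ^ n := (val_lt x).trans_le (Nat.pow_le_pow_right (by norm_num) hx)
  have h8 : val y < 2 ^ n := (val_lt y).trans_le (Nat.pow_le_pow_right (by norm_num) hy)
  have h9 : hor 0 ([] : List Bool) = 0 := rfl
  simp only [val_nil, add_zero, h9, List.length_nil, pow_zero, one_mul, Bool.toNat_false,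
    zero_add] at h1
  have h10 : (addStep^[n + 1] (false, (x, (y, [])))).1.toNat = 0 := by
    by_contra hne
    have h11 : 1 ≤ (addStep^[n + 1] (false, (x, (y, [])))).1.toNat := Nat.one_le_iff_ne_zero.mpr hne
    have h12 := Nat.mul_le_mul_left (2 ^ (n + 1)) h11
    have h13 : 2 ^ (n + 1) = 2 ^ n * 2 := pow_succ 2 n
    omega
  rw [h10] at h1
  simpa using h1

theorem FP.addStep' : FP addStep := by
  unfold addStep
  fun_prop

@[fun_prop]
theorem FP.natAdd {f g : α → ℕ} (hf : FP f) (hg : FP g) : FP fun a => f a + g a := by
  have h1 : FP fun p : List Bool × AddSt => addStep^[p.1.length] p.2 := by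
    refine FP.iterate FP.addStep' (B := fun n => 10 * n + 20) (by fun_prop) ?_
    intro l a i hi
    obtain ⟨h2, h3, h4⟩ := addStep_iter' i a
    have h5 := sz_drop a.2.1 i
    have h6 := sz_drop a.2.2.1 i
    obtain ⟨c, x, y, o⟩ := a
    rcases hq : addStep^[i] (c, x, y, o) with ⟨c', x', y', o'⟩
    rw [hq] at h2 h3 h4
    simp only at h2 h3 h4 h5 h6
    rw [← h2] at h5
    rw [← h3] at h6
    have h7 := length_le_sz l
    simp only [sz_pair, sz_bool, sz_bits] at *
    omega
  have h2 : FP fun a => true :: (encodeNat (f a) ++ encodeNat (g a)) :=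
    FP.cons (FP.const true) ((FP.bits hf).append (FP.bits hg))
  have h3 := h1.comp (h2.pair (FP.pair (FP.const false) (FP.pair (FP.bits hf)
    (FP.pair (FP.bits hg) (FP.const ([] : List Bool))))))
  have h4 := FP.canon h3.snd'.snd'.snd'
  refine (congrArg FP (funext fun a => ?_)).mp h4
  simp only [List.length_cons]
  rw [addStep_final _ _ _ (by simp) (by simp), val_encodeNat, val_encodeNat]

/-! ## Multiplication -/

theorem hor_reverse (l : List Bool) : hor 0 l.reverse = val l := by
  rw [hor, val, List.foldl_reverse]

/-- one step of the multiplication -/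
def mulStep (s : ℕ × ℕ) (b : Bool) : ℕ × ℕ := (s.1, (s.2 + s.2) + if b then s.1 else 0)

theorem mulStep_foldl (l : List Bool) (y v : ℕ) :
    l.foldl mulStep (y, v) = (y, v * 2 ^ l.length + hor 0 l * y) := by
  induction l generalizing v with
  | nil => simp [hor]
  | cons b l ih =>
    rw [List.foldl_cons, mulStep]
    simp only
    rw [ih, hor_cons, List.length_cons, pow_succ]
    congr 1
    cases b <;> simp <;> ring

omit [N487b59b3 β] in
theorem rev_foldl (l a : List β) : l.foldl (fun s b => b :: s) a = l.reverse ++ a := by
  induction l generalizing a with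
  | nil => rfl
  | cons b l ih => rw [List.foldl_cons, ih]; simp

theorem sz_reverse (l : List β) : sz l.reverse = sz l := by
  induction l with
  | nil => rfl
  | cons b l ih => rw [List.reverse_cons, sz_append, ih]; simp; omega

@[fun_prop]
theorem FP.reverse [Inhabited β] {f : α → List β} (hf : FP f) : FP fun a => (f a).reverse := by
  have h1 : FP fun p : List β × List β => p.1.foldl (fun s b => b :: s) p.2 := by
    refine FP.foldl (g := fun (s : List β) (b : β) => b :: s) (by fun_prop)
      (B := fun n => n) (by fun_prop) ?_
    intro l a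
    rw [rev_foldl, sz_append, sz_reverse]
  have h2 := h1.comp (hf.pair (FP.const ([] : List β)))
  refine (congrArg FP (funext fun a => ?_)).mp h2
  simp only [rev_foldl, List.append_nil]

@[fun_prop]
theorem FP.natMul {f g : α → ℕ} (hf : FP f) (hg : FP g) : FP fun a => f a * g a := by
  have h1 : FP fun p : List Bool × (ℕ × ℕ) => p.1.foldl mulStep p.2 := by
    refine FP.foldl ?_ (B := fun n => 6 * n + 1) (by fun_prop) ?_
    · have h2 : FP fun p : (ℕ × ℕ) × Bool => (p.1.2 + p.1.2) + if p.2 then p.1.1 else 0 :=
        FP.natAdd (by fun_prop) (FP.ite (by fun_prop) (by fun_prop) (FP.const 0))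
      exact FP.pair (by fun_prop) h2
    · rintro l ⟨y, v⟩
      rw [mulStep_foldl]
      simp only [sz_pair, sz_bits, sz_nat]
      have h3 : Nat.size (v * 2 ^ l.length + hor 0 l * y) ≤
          Nat.size v + Nat.size y + l.length := by
        rw [Nat.size_le]
        have h4 := Nat.lt_size_self v
        have h5 := Nat.lt_size_self y
        have h6 := hor_lt l
        have h7 : v * 2 ^ l.length + hor 0 l * y < (v + y + 1) * 2 ^ l.length := by
          have : hor 0 l * y ≤ 2 ^ l.length * y := Nat.mul_le_mul_right _ h6.le
          have h8 : 0 < 2 ^ l.length := by positivity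
          nlinarith
        have h8 : v + y + 1 ≤ 2 ^ Nat.size v * 2 ^ Nat.size y := by
          have h9 : (v + 1) * (y + 1) ≤ 2 ^ Nat.size v * 2 ^ Nat.size y :=
            Nat.mul_le_mul h4 h5
          nlinarith
        calc _ < (v + y + 1) * 2 ^ l.length := h7
          _ ≤ 2 ^ Nat.size v * 2 ^ Nat.size y * 2 ^ l.length := Nat.mul_le_mul_right _ h8
          _ = _ := by rw [pow_add, pow_add]
      omega
  have h2 := h1.comp ((FP.reverse (FP.bits hf)).pair (hg.pair (FP.const 0)))
  refine (congrArg FP (funext fun a => ?_)).mp h2.snd'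
  simp only [mulStep_foldl, hor_reverse, val_encodeNat]
  ring

/-! ## Equality -/

/-- one step of the comparison of words -/
def eqStep (s : Bool × List Bool) (b : Bool) : Bool × List Bool :=
  (s.1 && (!s.2.isEmpty && (s.2.headD false == b)), s.2.tail)

theorem eqStep_false (l r : List Bool) : (l.foldl eqStep (false, r)).1 = false := by
  induction l generalizing r with
  | nil => rfl
  | cons b l ih => rw [List.foldl_cons, eqStep]; simpa using ih _

theorem eqStep_foldl (l r : List Bool) :
    ((l.foldl eqStep (true, r)).1 && (l.foldl eqStep (true, r)).2.isEmpty) = decide (l = r) := by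
  induction l generalizing r with
  | nil => cases r <;> simp
  | cons b l ih =>
    rw [List.foldl_cons, eqStep]
    cases r with
    | nil => simp [eqStep_false]
    | cons c r =>
      simp only [List.isEmpty_cons, Bool.not_false, List.headD_cons, Bool.true_and, List.tail_cons]
      by_cases h : c = b
      · subst h
        simp [ih]
      · have h2 : (c == b) = false := by simpa using h
        rw [h2, eqStep_false]
        simp [Ne.symm h]

theorem eqStep_length (l : List Bool) (s : Bool × List Bool) :
    (l.foldl eqStep s).2.length ≤ s.2.length := by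
  induction l generalizing s with
  | nil => rfl
  | cons b l ih => rw [List.foldl_cons]; refine (ih _).trans ?_; simp [eqStep]

theorem encodeNat_inj {m n : ℕ} (h : encodeNat m = encodeNat n) : m = n := by
  rw [← val_encodeNat m, h, val_encodeNat]

@[fun_prop]
theorem FP.bitsEq {f g : α → List Bool} (hf : FP f) (hg : FP g) :
    FP fun a => decide (f a = g a) := by
  have h1 : FP fun p : List Bool × (Bool × List Bool) => p.1.foldl eqStep p.2 := by
    refine FP.foldl ?_ (B := fun n => 3 * n + 3) (by fun_prop) ?_
    · unfold eqStep
      fun_prop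
    · intro l a
      have := eqStep_length l a
      obtain ⟨b, r⟩ := a
      rcases hq : l.foldl eqStep (b, r) with ⟨b', r'⟩
      rw [hq] at this
      simp only [sz_pair, sz_bool, sz_bits] at *
      omega
  have h2 := h1.comp (hf.pair (FP.pair (FP.const true) hg))
  have h3 := h2.fst'.and h2.snd'.isEmpty
  refine (congrArg FP (funext fun a => ?_)).mp h3
  exact eqStep_foldl _ _

@[fun_prop]
theorem FP.natEq {f g : α → ℕ} (hf : FP f) (hg : FP g) : FP fun a => decide (f a = g a) := by
  have h := FP.bitsEq (FP.bits hf) (FP.bits hg)
  refine (congrArg FP (funext fun a => ?_)).mp h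
  exact decide_eq_decide.mpr ⟨encodeNat_inj, fun h => by rw [h]⟩

/-! ## Ranges -/

omit [N487b59b3 β] in
theorem range_foldl (l : List β) (n : ℕ) (acc : List ℕ) :
    l.foldl (fun (s : ℕ × List ℕ) (_ : β) => (s.1 + 1, s.2 ++ [s.1])) (n, acc) =
      (n + l.length, acc ++ List.range' n l.length) := by
  induction l generalizing n acc with
  | nil => simp
  | cons b l ih =>
    rw [List.foldl_cons, ih, List.length_cons, List.range'_succ]
    simp only [List.append_assoc, List.singleton_append, Prod.mk.injEq, and_true]
    omega

theorem sz_range' (n m : ℕ) : sz (List.range' n m) ≤ m * (2 * (n.size + m) + 1) := by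
  induction m generalizing n with
  | zero => simp
  | succ m ih =>
    rw [List.range'_succ, sz_cons, sz_nat]
    have h1 : (n + 1).size ≤ n.size + 1 := by
      rw [Nat.size_le, pow_succ]
      have := Nat.lt_size_self n
      have h2 : 0 < 2 ^ n.size := by positivity
      omega
    have h2 := ih (n + 1)
    have h3 : m * (2 * ((n + 1).size + m) + 1) ≤ m * (2 * (n.size + (m + 1)) + 1) :=
      Nat.mul_le_mul_left _ (by omega)
    have h4 : (m + 1) * (2 * (n.size + (m + 1)) + 1) =
      m * (2 * (n.size + (m + 1)) + 1) + (2 * (n.size + (m + 1)) + 1) := by ring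
    omega

@[fun_prop]
theorem FP.range [Inhabited β] {f : α → List β} (hf : FP f) :
    FP fun a => List.range (f a).length := by
  have h1 : FP fun p : List β × (ℕ × List ℕ) =>
      p.1.foldl (fun (s : ℕ × List ℕ) (_ : β) => (s.1 + 1, s.2 ++ [s.1])) p.2 := by
    refine FP.foldl (g := fun (s : ℕ × List ℕ) (_ : β) => (s.1 + 1, s.2 ++ [s.1])) ?_
      (B := fun n => 2 * (2 * n) + 1 + (n + n * (2 * (n + n) + 1))) (by fun_prop) ?_
    · have h2 : FP fun p : (ℕ × List ℕ) × β => p.1.1 + 1 := FP.natAdd (by fun_prop) (FP.const 1)
      have h3 : FP fun p : (ℕ × List ℕ) × β => [p.1.1] :=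
        FP.cons (by fun_prop) (FP.const [])
      exact h2.pair (FP.append (by fun_prop) h3)
    · rintro l ⟨n, acc⟩
      rw [range_foldl]
      have h0 := length_le_sz l
      have h4 := sz_range' n l.length
      have h5 : (n + l.length).size ≤ n.size + l.length := by
        rw [Nat.size_le, pow_add]
        have h6 := Nat.lt_size_self n
        have h7 : l.length < 2 ^ l.length := Nat.lt_two_pow_self
        have h8 : (n + 1) * (l.length + 1) ≤ 2 ^ n.size * 2 ^ l.length := Nat.mul_le_mul h6 h7
        nlinarith
      simp only [sz_pair, sz_append, sz_nat]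
      generalize hN : sz l + (2 * n.size + 1 + sz acc) = N
      have h9 : l.length * (2 * (n.size + l.length) + 1) ≤ N * (2 * (N + N) + 1) :=
        Nat.mul_le_mul (by omega) (by omega)
      omega
  have h2 := h1.comp (hf.pair (FP.pair (FP.const 0) (FP.const ([] : List ℕ))))
  refine (congrArg FP (funext fun a => ?_)).mp h2.snd'
  simp only [range_foldl, List.nil_append, List.range_eq_range']

end

end Pool.Agent.Helper6.WB
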