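import Mathlib

/-!
Arithmetic formulas over the rationals, the number of times a formula reads a variable, and the
code of a formula.
-/

namespace Pool.Agent.Helper6.WB

/-- Arithmetic formulas over `ℚ`: trees whose leaves are rational constants and variables and whose
inner nodes are binary additions and multiplications. -/
inductive Fm : Type
  | const (q : ℚ) : Fm
  | var (i : ℕ) : Fm
  | add (F G : Fm) : Fm
  | mul (F G : Fm) : Fm

namespace Fm

/-- The polynomial computed by a formula. -/
noncomputable def poly : Fm → MvPolynomial ℕ ℚ
  | const q => MvPolynomial.C q
  | var i => MvPolynomial.X i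
  | add F G => F.poly + G.poly
  | mul F G => F.poly * G.poly

/-- The (indices of the) variables which occur in a formula. -/
def vars : Fm → Finset ℕ
  | const _ => ∅
  | var i => {i}
  | add F G => F.vars ∪ G.vars
  | mul F G => F.vars ∪ G.vars

/-- `F.reads i` is the number of maximal subformulas of `F` in which `x_i` occurs and is the only
variable. It is at most the number of leaves labelled `x_i`. -/
def reads (i : ℕ) : Fm → ℕ
  | const _ => 0
  | var j => if j = i then 1 else 0
  | add F G => if F.vars ∪ G.vars = {i} then 1 else F.reads i + G.reads i
  | mul F G => if F.vars ∪ G.vars = {i} then 1 else F.reads i + G.reads i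

/-- The input of the algorithm: the formula in postfix notation, `(0, q)` standing for the constant
`q`, `(1, 0)` for `+`, `(2, 0)` for `×` and `(i + 3, 0)` for the variable `x_i`. -/
def code : Fm → List (ℕ × ℚ)
  | const q => [(0, q)]
  | var i => [(i + 3, 0)]
  | add F G => F.code ++ G.code ++ [(1, 0)]
  | mul F G => F.code ++ G.code ++ [(2, 0)]

end Fm

end Pool.Agent.Helper6.WB
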