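import Pool.Agent.Helper6.WB.FmNear
import Mathlib.Combinatorics.Nullstellensatz

/-!
A local maximum of the number of nonvanishing subformulas is a global maximum.
-/

namespace Pool.Agent.Helper6.WB

open Fm

namespace Fm

theorem subs_trans {F G H : Fm} (h1 : G ∈ F.subs) (h2 : H ∈ G.subs) : H ∈ F.subs := by
  induction F with
  | const q =>
    simp only [subs, List.mem_singleton] at h1
    subst h1; exact h2
  | var i =>
    simp only [subs, List.mem_singleton] at h1
    subst h1; exact h2
  | add A B ihA ihB =>
    simp only [subs, List.mem_append, List.mem_singleton] at h1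
    rcases h1 with (h1 | h1) | h1
    · simp [subs, ihA h1]
    · simp [subs, ihB h1]
    · subst h1; exact h2
  | mul A B ihA ihB =>
    simp only [subs, List.mem_append, List.mem_singleton] at h1
    rcases h1 with (h1 | h1) | h1
    · simp [subs, ihA h1]
    · simp [subs, ihB h1]
    · subst h1; exact h2

theorem vars_sub {F G : Fm} (h : G ∈ F.subs) : G.vars ⊆ F.vars := by
  induction F with
  | const q =>
    simp only [subs, List.mem_singleton] at h
    subst h; rfl
  | var i =>
    simp only [subs, List.mem_singleton] at h
    subst h; rfl
  | add A B ihA ihB =>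
    simp only [subs, List.mem_append, List.mem_singleton] at h
    rcases h with (h | h) | h
    · exact (ihA h).trans Finset.subset_union_left
    · exact (ihB h).trans Finset.subset_union_right
    · subst h; rfl
  | mul A B ihA ihB =>
    simp only [subs, List.mem_append, List.mem_singleton] at h
    rcases h with (h | h) | h
    · exact (ihA h).trans Finset.subset_union_left
    · exact (ihB h).trans Finset.subset_union_right
    · subst h; rfl

theorem size_sub {F G : Fm} (h : G ∈ F.subs) : G.size ≤ F.size := by
  induction F with
  | const q =>
    simp only [subs, List.mem_singleton] at h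
    subst h; rfl
  | var i =>
    simp only [subs, List.mem_singleton] at h
    subst h; rfl
  | add A B ihA ihB =>
    simp only [subs, List.mem_append, List.mem_singleton] at h
    rcases h with (h | h) | h
    · have := ihA h; simp only [size]; omega
    · have := ihB h; simp only [size]; omega
    · subst h; rfl
  | mul A B ihA ihB =>
    simp only [subs, List.mem_append, List.mem_singleton] at h
    rcases h with (h | h) | h
    · have := ihA h; simp only [size]; omega
    · have := ihB h; simp only [size]; omega
    · subst h; rfl

theorem reads_of_vars_subset {F : Fm} {i : ℕ} (h : F.vars ⊆ {i}) : F.reads i ≤ 1 := by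
  induction F with
  | const q => simp [reads]
  | var j => simp only [reads]; split_ifs <;> omega
  | add A B ihA ihB =>
    simp only [reads]
    split_ifs with h1
    · exact le_rfl
    · have h2 : A.vars ∪ B.vars = ∅ := by
        simp only [vars] at h
        rcases Finset.subset_singleton_iff.mp h with h3 | h3
        · exact h3
        · exact absurd h3 h1
      have hz : ∀ C : Fm, C.vars = ∅ → C.reads i = 0 := by
        intro C
        induction C with
        | const q => intro _; rfl
        | var j => intro hC; simp [vars] at hC
        | add C D ihC ihD =>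
          intro hC
          simp only [vars] at hC
          have h4 := Finset.union_eq_empty.mp hC
          simp only [reads]
          rw [if_neg (by rw [hC]; exact (Finset.singleton_ne_empty i).symm), ihC h4.1, ihD h4.2]
        | mul C D ihC ihD =>
          intro hC
          simp only [vars] at hC
          have h4 := Finset.union_eq_empty.mp hC
          simp only [reads]
          rw [if_neg (by rw [hC]; exact (Finset.singleton_ne_empty i).symm), ihC h4.1, ihD h4.2]
      have h4 := Finset.union_eq_empty.mp h2
      rw [hz A h4.1, hz B h4.2]
      omega
  | mul A B ihA ihB =>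
    simp only [reads]
    split_ifs with h1
    · exact le_rfl
    · have h2 : A.vars ∪ B.vars = ∅ := by
        simp only [vars] at h
        rcases Finset.subset_singleton_iff.mp h with h3 | h3
        · exact h3
        · exact absurd h3 h1
      have hz : ∀ C : Fm, C.vars = ∅ → C.reads i = 0 := by
        intro C
        induction C with
        | const q => intro _; rfl
        | var j => intro hC; simp [vars] at hC
        | add C D ihC ihD =>
          intro hC
          simp only [vars] at hC
          have h4 := Finset.union_eq_empty.mp hC
          simp only [reads]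
          rw [if_neg (by rw [hC]; exact (Finset.singleton_ne_empty i).symm), ihC h4.1, ihD h4.2]
        | mul C D ihC ihD =>
          intro hC
          simp only [vars] at hC
          have h4 := Finset.union_eq_empty.mp hC
          simp only [reads]
          rw [if_neg (by rw [hC]; exact (Finset.singleton_ne_empty i).symm), ihC h4.1, ihD h4.2]
      have h4 := Finset.union_eq_empty.mp h2
      rw [hz A h4.1, hz B h4.2]
      omega

theorem reads_sub {F G : Fm} (h : G ∈ F.subs) (i : ℕ) : G.reads i ≤ F.reads i := by
  induction F with
  | const q =>
    simp only [subs, List.mem_singleton] at h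
    subst h; rfl
  | var i =>
    simp only [subs, List.mem_singleton] at h
    subst h; rfl
  | add A B ihA ihB =>
    have hv := vars_sub h
    simp only [subs, List.mem_append, List.mem_singleton] at h
    rcases h with (h | h) | h
    · simp only [reads]
      split_ifs with h1
      · exact reads_of_vars_subset (by rw [← h1]; exact hv)
      · have := ihA h; omega
    · simp only [reads]
      split_ifs with h1
      · exact reads_of_vars_subset (by rw [← h1]; exact hv)
      · have := ihB h; omega
    · subst h; rfl
  | mul A B ihA ihB =>
    have hv := vars_sub h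
    simp only [subs, List.mem_append, List.mem_singleton] at h
    rcases h with (h | h) | h
    · simp only [reads]
      split_ifs with h1
      · exact reads_of_vars_subset (by rw [← h1]; exact hv)
      · have := ihA h; omega
    · simp only [reads]
      split_ifs with h1
      · exact reads_of_vars_subset (by rw [← h1]; exact hv)
      · have := ihB h; omega
    · subst h; rfl

theorem totalDegree_poly (F : Fm) : F.poly.totalDegree ≤ F.size := by
  induction F with
  | const q => simp [poly, size]
  | var i => simp [poly, size]
  | add A B ihA ihB =>
    simp only [poly, size]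
    exact (MvPolynomial.totalDegree_add _ _).trans (max_le (by omega) (by omega))
  | mul A B ihA ihB =>
    simp only [poly, size]
    exact (MvPolynomial.totalDegree_mul _ _).trans (Nat.add_le_add ihA ihB)

end Fm

/-- the polynomial of `F` in the variables of `S`, the others having the values `γ` -/
noncomputable def part (S : Finset ℕ) (γ : ℕ → ℚ) : Fm → MvPolynomial S ℚ
  | .const q => MvPolynomial.C q
  | .var i => if h : i ∈ S then MvPolynomial.X ⟨i, h⟩ else MvPolynomial.C (γ i)
  | .add F G => part S γ F + part S γ G
  | .mul F G => part S γ F * part S γ G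

/-- the point with the coordinates `y` on `S` and `γ` elsewhere -/
def mix (S : Finset ℕ) (γ : ℕ → ℚ) (y : S → ℚ) : ℕ → ℚ :=
  fun i => if h : i ∈ S then y ⟨i, h⟩ else γ i

theorem eval_part (S : Finset ℕ) (γ : ℕ → ℚ) (y : S → ℚ) (F : Fm) :
    MvPolynomial.eval y (part S γ F) = F.ev (mix S γ y) := by
  induction F with
  | const q => simp [part, ev]
  | var i =>
    simp only [part, ev, mix]
    split_ifs with h
    · simp
    · simp
  | add A B ihA ihB => simp [part, ev, ihA, ihB]
  | mul A B ihA ihB => simp [part, ev, ihA, ihB]

theorem totalDegree_part (S : Finset ℕ) (γ : ℕ → ℚ) (F : Fm) :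
    (part S γ F).totalDegree ≤ F.size := by
  induction F with
  | const q => simp [part, size]
  | var i =>
    simp only [part, size]
    split_ifs with h
    · simp
    · simp
  | add A B ihA ihB =>
    simp only [part, size]
    exact (MvPolynomial.totalDegree_add _ _).trans (max_le (by omega) (by omega))
  | mul A B ihA ihB =>
    simp only [part, size]
    exact (MvPolynomial.totalDegree_mul _ _).trans (Nat.add_le_add ihA ihB)

/-- number of subformulas not vanishing at a point -/
def pot (γ : ℕ → ℚ) (F : Fm) : ℕ := F.subs.countP fun G => G.ev γ ≠ 0

theorem countP_lt {α : Type} {p q : α → Prop} [DecidablePred p] [DecidablePred q] {l : List α}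
    (h : ∀ a ∈ l, p a → q a) {a : α} (ha : a ∈ l) (hq : q a) (hp : ¬ p a) :
    l.countP p < l.countP q := by
  induction l with
  | nil => simp at ha
  | cons b l ih =>
    have h1 : l.countP p ≤ l.countP q := by
      apply List.countP_mono_left
      intro x hx
      simpa using h x (List.mem_cons_of_mem _ hx)
    rcases List.mem_cons.mp ha with rfl | ha
    · rw [List.countP_cons_of_neg (by simpa using hp), List.countP_cons_of_pos (by simpa using hq)]
      omega
    · have h2 := ih (fun x hx => h x (List.mem_cons_of_mem _ hx)) ha
      by_cases hb : p b
      · rw [List.countP_cons_of_pos (by simpa using hb),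
          List.countP_cons_of_pos (by simpa using h b List.mem_cons_self hb)]
        omega
      · rw [List.countP_cons_of_neg (by simpa using hb)]
        refine h2.trans_le ?_
        rw [List.countP_cons]
        omega

/-- `γ` maximises the potential among the points obtained by changing few coordinates -/
def IsLocMax (F : Fm) (κ B : ℕ) (γ : ℕ → ℚ) : Prop :=
  ∀ (x : ℕ → ℚ) (S : Finset ℕ), S ⊆ F.vars → S.card ≤ κ → (∀ i, i ∉ S → x i = γ i) →
    (∀ i ∈ S, ∃ v : ℕ, v ≤ B ∧ x i = v) → pot x F ≤ pot γ F

theorem improve {F : Fm} {γ : ℕ → ℚ} {κ B : ℕ} (hB : (F.subs.length + 1) * F.size ≤ B)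
    (hmax : IsLocMax F κ B γ) {G : Fm} (hG : G ∈ F.subs) (h0 : G.ev γ = 0) {x : ℕ → ℚ}
    {S : Finset ℕ} (hS : S ⊆ F.vars) (hc : S.card ≤ κ) (hx : ∀ i, i ∉ S → x i = γ i) :
    G.ev x = 0 := by
  classical
  by_contra hne
  set L := F.subs.filter fun H => H.ev γ ≠ 0 with hL
  set P : MvPolynomial S ℚ := part S γ G * (L.map (part S γ)).prod with hP
  have hmixγ : mix S γ (fun i => γ i) = γ := by
    funext i
    unfold mix
    split_ifs <;> rfl
  have hmixx : mix S γ (fun i => x i) = x := by
    funext i
    unfold mix
    split_ifs with h
    · rfl
    · exact (hx i h).symm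
  have hP0 : P ≠ 0 := by
    rw [hP]
    apply mul_ne_zero
    · intro h
      apply hne
      rw [← hmixx, ← eval_part, h, map_zero]
    · apply List.prod_ne_zero
      intro h
      rw [List.mem_map] at h
      obtain ⟨H, hH, h⟩ := h
      rw [hL, List.mem_filter] at hH
      have h1 : H.ev γ ≠ 0 := by simpa using hH.2
      apply h1
      rw [← hmixγ, ← eval_part, h, map_zero]
  have hdeg : P.totalDegree ≤ B := by
    have h1 : ∀ l : List Fm, (∀ H ∈ l, H.size ≤ F.size) →
        ((l.map (part S γ)).prod).totalDegree ≤ l.length * F.size := by
      intro l
      induction l with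
      | nil => intro _; simp
      | cons H l ih =>
        intro h
        rw [List.map_cons, List.prod_cons, List.length_cons]
        refine (MvPolynomial.totalDegree_mul _ _).trans ?_
        have h2 := ih fun H hH => h H (List.mem_cons_of_mem _ hH)
        have h3 := (totalDegree_part S γ H).trans (h H List.mem_cons_self)
        calc _ ≤ F.size + l.length * F.size := Nat.add_le_add h3 h2
          _ = _ := by ring
    refine le_trans ?_ hB
    rw [hP]
    refine (MvPolynomial.totalDegree_mul _ _).trans ?_
    have h2 := h1 L (fun H hH => by
      rw [hL, List.mem_filter] at hH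
      exact size_sub hH.1)
    have h3 := (totalDegree_part S γ G).trans (size_sub hG)
    have h4 : L.length ≤ F.subs.length := List.length_filter_le _ _
    calc _ ≤ F.size + L.length * F.size := Nat.add_le_add h3 h2
      _ ≤ F.size + F.subs.length * F.size := Nat.add_le_add_left (Nat.mul_le_mul_right _ h4) _
      _ = _ := by ring
  obtain ⟨y, hy, hPy⟩ : ∃ y : S → ℚ, (∀ i, ∃ v : ℕ, v ≤ B ∧ y i = v) ∧
      MvPolynomial.eval y P ≠ 0 := by
    by_contra hcon
    push Not at hcon
    apply hP0
    apply MvPolynomial.eq_zero_of_eval_zero_at_prod_finset P
      (fun _ => (Finset.range (B + 1)).map ⟨fun v : ℕ => (v : ℚ), Nat.cast_injective⟩)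
    · intro i
      rw [Finset.card_map, Finset.card_range]
      exact Nat.lt_succ_of_le ((MvPolynomial.degreeOf_le_totalDegree P i).trans hdeg)
    · intro y hy
      apply hcon
      intro i
      have := hy i
      rw [Finset.mem_map] at this
      obtain ⟨v, hv, hv'⟩ := this
      exact ⟨v, by rw [Finset.mem_range] at hv; omega, hv'.symm⟩
  have h1 := hmax (mix S γ y) S hS hc (fun i hi => by unfold mix; rw [dif_neg hi])
    (fun i hi => by
      unfold mix
      rw [dif_pos hi]
      exact hy _)
  rw [hP, map_mul, eval_part, map_list_prod, List.map_map] at hPy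
  have h2 : G.ev (mix S γ y) ≠ 0 := left_ne_zero_of_mul hPy
  have h3 := right_ne_zero_of_mul hPy
  have h4 : pot γ F < pot (mix S γ y) F := by
    unfold pot
    apply countP_lt (a := G) ?_ hG h2 (by simpa using h0)
    intro H hH h5 h6
    apply h3
    apply List.prod_eq_zero
    rw [List.mem_map]
    refine ⟨H, ?_, ?_⟩
    · rw [hL, List.mem_filter]
      exact ⟨hH, by simpa using h5⟩
    · simp only [Function.comp]
      rw [eval_part, h6]
  omega

/-- **Local maxima are global maxima.** -/
theorem allOk_of_locMax {F : Fm} {k : ℕ} (hk : ∀ i, F.reads i ≤ k) {γ : ℕ → ℚ} {B : ℕ}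
    (hB : (F.subs.length + 1) * F.size ≤ B) (hmax : IsLocMax F (kappa (k + 1)) B γ) :
    AllOk γ F := by
  have key : ∀ G : Fm, G ∈ F.subs → ProperOk γ G → G.ev γ = 0 → ∀ g, G.ev g = 0 := by
    intro G hG hp h0 g
    by_contra hne
    obtain ⟨x, S, hS, hc, hx, hev⟩ := fm_near G (fun i => (reads_sub hG i).trans (hk i)) γ hp
      ⟨g, hne⟩
    exact hev (improve hB hmax hG h0 (hS.trans (vars_sub hG)) hc hx)
  have all : ∀ G : Fm, G ∈ F.subs → AllOk γ G := by
    intro G
    induction G with
    | const q =>
      intro hG H hH
      simp only [subs, List.mem_singleton] at hH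
      subst hH
      exact key _ hG trivial
    | var i =>
      intro hG H hH
      simp only [subs, List.mem_singleton] at hH
      subst hH
      exact key _ hG trivial
    | add A B ihA ihB =>
      intro hG
      have hA := ihA (subs_trans hG (by simp [subs, self_mem_subs]))
      have hB := ihB (subs_trans hG (by simp [subs, self_mem_subs]))
      intro H hH
      simp only [subs, List.mem_append, List.mem_singleton] at hH
      rcases hH with (hH | hH) | hH
      · exact hA H hH
      · exact hB H hH
      · subst hH
        exact key _ hG ⟨hA, hB⟩
    | mul A B ihA ihB =>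
      intro hG
      have hA := ihA (subs_trans hG (by simp [subs, self_mem_subs]))
      have hB := ihB (subs_trans hG (by simp [subs, self_mem_subs]))
      intro H hH
      simp only [subs, List.mem_append, List.mem_singleton] at hH
      rcases hH with (hH | hH) | hH
      · exact hA H hH
      · exact hB H hH
      · subst hH
        exact key _ hG ⟨hA, hB⟩
  exact all F F.self_mem_subs

theorem poly_eq_zero_iff {F : Fm} {k : ℕ} (hk : ∀ i, F.reads i ≤ k) {γ : ℕ → ℚ} {B : ℕ}
    (hB : (F.subs.length + 1) * F.size ≤ B) (hmax : IsLocMax F (kappa (k + 1)) B γ) :
    F.poly = 0 ↔ F.ev γ = 0 := by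
  constructor
  · intro h
    rw [← Fm.eval_poly, h, map_zero]
  · intro h
    apply MvPolynomial.funext
    intro g
    rw [Fm.eval_poly, map_zero]
    exact allOk_of_locMax hk hB hmax F F.self_mem_subs h g

end Pool.Agent.Helper6.WB
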