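import Pool.Agent.Helper6.WB.Arith
import Pool.Agent.Helper6.WB.LocMax

set_option autoImplicit false

/-!
Evaluation of formulas in polynomial time.
-/

namespace Pool.Agent.Helper6.WB

open Turing Function N487b59b3 N68a2faeb Pool.Agent.Helper22 Computability

/-- rational numbers, as quotients of a difference of natural numbers -/
abbrev El := (ℕ × ℕ) × ℕ

/-- value of an element -/
def toQ (e : El) : ℚ := ((e.1.1 : ℚ) - e.1.2) / e.2

/-- sum -/
def elAdd (a b : El) : El :=
  ((a.1.1 * b.2 + b.1.1 * a.2, a.1.2 * b.2 + b.1.2 * a.2), a.2 * b.2)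

/-- product -/
def elMul (a b : El) : El :=
  ((a.1.1 * b.1.1 + a.1.2 * b.1.2, a.1.1 * b.1.2 + a.1.2 * b.1.1), a.2 * b.2)

/-- a rational number as an element -/
def qEl (q : ℚ) : El := ((q.num.toNat, (-q.num).toNat), q.den)

/-- default element -/
def e0 : El := ((0, 0), 1)

theorem toQ_add {a b : El} (ha : a.2 ≠ 0) (hb : b.2 ≠ 0) : toQ (elAdd a b) = toQ a + toQ b := by
  have h1 : (a.2 : ℚ) ≠ 0 := Nat.cast_ne_zero.mpr ha
  have h2 : (b.2 : ℚ) ≠ 0 := Nat.cast_ne_zero.mpr hb
  simp only [toQ, elAdd]
  push_cast
  field_simp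
  ring

theorem toQ_mul {a b : El} : toQ (elMul a b) = toQ a * toQ b := by
  simp only [toQ, elMul]
  push_cast
  rw [div_mul_div_comm]
  ring

theorem toQ_qEl (q : ℚ) : toQ (qEl q) = q := by
  have h : ((q.num.toNat : ℚ) - ((-q.num).toNat : ℚ)) = (q.num : ℚ) := by
    have : ((q.num.toNat : ℤ) - ((-q.num).toNat : ℤ)) = q.num := by omega
    exact_mod_cast congrArg (fun z : ℤ => (z : ℚ)) this
  simp only [toQ, qEl]
  rw [h, Rat.num_div_den]

theorem toQ_eq_zero {a : El} (ha : a.2 ≠ 0) : toQ a = 0 ↔ a.1.1 = a.1.2 := by
  have h1 : (a.2 : ℚ) ≠ 0 := Nat.cast_ne_zero.mpr ha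
  simp only [toQ]
  rw [div_eq_zero_iff]
  constructor
  · rintro (h | h)
    · exact_mod_cast sub_eq_zero.mp h
    · exact absurd h h1
  · intro h
    left
    rw [h, sub_self]

/-- total size of an element -/
def tot (a : El) : ℕ := a.1.1 + a.1.2 + a.2

theorem tot_add (a b : El) : tot (elAdd a b) ≤ tot a * tot b := by
  simp only [tot, elAdd]
  nlinarith [Nat.zero_le (a.1.1 * b.1.1), Nat.zero_le (a.1.1 * b.1.2), Nat.zero_le (a.1.2 * b.1.1),
    Nat.zero_le (a.1.2 * b.1.2)]

theorem tot_mul (a b : El) : tot (elMul a b) ≤ tot a * tot b := by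
  simp only [tot, elMul]
  nlinarith [Nat.zero_le (a.1.1 * b.2), Nat.zero_le (a.1.2 * b.2), Nat.zero_le (a.2 * b.1.1),
    Nat.zero_le (a.2 * b.1.2)]

/-- number of bits of an element -/
def bt (a : El) : ℕ := (tot a).size

theorem size_mul_le (m n : ℕ) : (m * n).size ≤ m.size + n.size := by
  rw [Nat.size_le, pow_add]
  exact Nat.mul_lt_mul'' (Nat.lt_size_self m) (Nat.lt_size_self n)

theorem bt_add (a b : El) : bt (elAdd a b) ≤ bt a + bt b :=
  (Nat.size_le_size (tot_add a b)).trans (size_mul_le _ _)

theorem bt_mul (a b : El) : bt (elMul a b) ≤ bt a + bt b :=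
  (Nat.size_le_size (tot_mul a b)).trans (size_mul_le _ _)

theorem sz_el_le (a : El) : sz a ≤ 7 * bt a + 3 := by
  obtain ⟨⟨p, n⟩, d⟩ := a
  simp only [sz_pair, sz_nat, bt, tot]
  have h1 : p.size ≤ (p + n + d).size := Nat.size_le_size (by omega)
  have h2 : n.size ≤ (p + n + d).size := Nat.size_le_size (by omega)
  have h3 : d.size ≤ (p + n + d).size := Nat.size_le_size (by omega)
  omega

theorem size_add_le (m n : ℕ) : (m + n).size ≤ m.size + n.size + 1 := by
  rw [Nat.size_le, pow_succ, pow_add]
  have h1 := Nat.lt_size_self m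
  have h2 := Nat.lt_size_self n
  have h3 : 0 < 2 ^ m.size := by positivity
  have h4 : 0 < 2 ^ n.size := by positivity
  nlinarith

theorem bt_le (a : El) : bt a ≤ sz a + 2 := by
  obtain ⟨⟨p, n⟩, d⟩ := a
  simp only [sz_pair, sz_nat, bt, tot]
  have h1 := size_add_le (p + n) d
  have h2 := size_add_le p n
  omega

/-- measure of a stack -/
def mu (l : List El) : ℕ := (l.map fun a => bt a + 1).sum

@[simp] theorem mu_nil : mu [] = 0 := rfl

@[simp] theorem mu_cons (a : El) (l : List El) : mu (a :: l) = bt a + 1 + mu l := by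
  simp [mu]

theorem sz_stack_le (l : List El) : sz l ≤ 14 * mu l := by
  induction l with
  | nil => simp
  | cons a l ih =>
    have := sz_el_le a
    simp only [sz_cons, mu_cons]
    omega

theorem mu_le (l : List El) : mu l ≤ 3 * sz l := by
  induction l with
  | nil => simp
  | cons a l ih =>
    have := bt_le a
    simp only [sz_cons, mu_cons]
    omega

/-- tokens after substitution -/
abbrev Tk := Bool × (Bool × El)

/-- the new stack -/
def stk (s : List El) (t : Tk) : List El :=
  if t.1 then (if t.2.1 then elMul (s.headD e0) (s.tail.headD e0) else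
    elAdd (s.headD e0) (s.tail.headD e0)) :: s.tail.tail
  else t.2.2 :: s

/-- a step of the stack machine -/
def stp (s : List El × List Bool) (t : Tk) : List El × List Bool :=
  (stk s.1 t, if decide (((stk s.1 t).headD e0).1.1 = ((stk s.1 t).headD e0).1.2) then s.2
    else true :: s.2)

theorem mu_stk (s : List El) (t : Tk) : mu (stk s t) ≤ mu s + (bt t.2.2 + 5) := by
  have h0 : bt e0 = 1 := by decide
  unfold stk
  split_ifs
  · rcases s with _ | ⟨a, _ | ⟨b, s⟩⟩
    · have := bt_mul e0 e0
      simp only [List.headD_nil, List.tail_nil, mu_cons, mu_nil]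
      omega
    · have := bt_mul a e0
      simp only [List.headD_cons, List.headD_nil, List.tail_cons, List.tail_nil, mu_cons, mu_nil]
      omega
    · have := bt_mul a b
      simp only [List.headD_cons, List.tail_cons, mu_cons]
      omega
  · rcases s with _ | ⟨a, _ | ⟨b, s⟩⟩
    · have := bt_add e0 e0
      simp only [List.headD_nil, List.tail_nil, mu_cons, mu_nil]
      omega
    · have := bt_add a e0
      simp only [List.headD_cons, List.headD_nil, List.tail_cons, List.tail_nil, mu_cons, mu_nil]
      omega
    · have := bt_add a b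
      simp only [List.headD_cons, List.tail_cons, mu_cons]
      omega
  · simp only [mu_cons]
    omega

theorem stp_foldl (l : List Tk) (s : List El × List Bool) :
    mu (l.foldl stp s).1 + (l.foldl stp s).2.length ≤ mu s.1 + s.2.length + 8 * sz l := by
  induction l generalizing s with
  | nil => simp
  | cons t l ih =>
    rw [List.foldl_cons]
    refine (ih _).trans ?_
    have h1 := mu_stk s.1 t
    have h2 : (stp s t).2.length ≤ s.2.length + 1 := by
      simp only [stp]
      split_ifs <;> simp
    have h3 : (stp s t).1 = stk s.1 t := rfl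
    have h4 : bt t.2.2 ≤ sz t := by
      obtain ⟨a, b, e⟩ := t
      have := bt_le e
      simp only [sz_pair, sz_bool]
      omega
    rw [h3, sz_cons]
    omega

section

variable {α β γ δ : Type} [N487b59b3 α] [N487b59b3 β] [N487b59b3 γ] [N487b59b3 δ]

@[fun_prop]
theorem fp_elAdd {f g : α → El} (hf : FP f) (hg : FP g) : FP fun a => elAdd (f a) (g a) := by
  unfold elAdd
  fun_prop

@[fun_prop]
theorem fp_elMul {f g : α → El} (hf : FP f) (hg : FP g) : FP fun a => elMul (f a) (g a) := by
  unfold elMul
  fun_prop

@[fun_prop]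
theorem fp_qEl {f : α → ℚ} (hf : FP f) : FP fun a => qEl (f a) := FP.recode hf fun _ => rfl

theorem fp_stk' : FP fun p : List El × Tk => stk p.1 p.2 := by
  unfold stk
  have h1 : FP fun p : List El × Tk => p.1.headD e0 := FP.headD (by fun_prop) _
  have h2 : FP fun p : List El × Tk => p.1.tail.headD e0 := FP.headD (by fun_prop) _
  exact FP.ite (by fun_prop) (FP.cons (FP.ite (by fun_prop) (by fun_prop) (by fun_prop))
    (by fun_prop)) (by fun_prop)

@[fun_prop]
theorem fp_stk {f : α → List El} {g : α → Tk} (hf : FP f) (hg : FP g) :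
    FP fun a => stk (f a) (g a) := fp_stk'.comp (hf.pair hg)

theorem fp_stp' : FP fun p : (List El × List Bool) × Tk => stp p.1 p.2 := by
  unfold stp
  have h1 : FP fun p : (List El × List Bool) × Tk => (stk p.1.1 p.2).headD e0 :=
    FP.headD (by fun_prop) _
  exact FP.pair (by fun_prop) (FP.ite (by fun_prop) (by fun_prop) (FP.cons (FP.const true)
    (by fun_prop)))

instance : Inhabited Tk := ⟨(false, (false, e0))⟩

theorem fp_run' : FP fun p : List Tk × (List El × List Bool) => p.1.foldl stp p.2 := by
  refine FP.foldl fp_stp' (B := fun n => 40 * (30 * n) + 1) (by fun_prop) ?_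
  intro l s
  have h1 := stp_foldl l s
  have h2 := sz_stack_le (l.foldl stp s).1
  obtain ⟨a, b⟩ := s
  rcases hq : l.foldl stp (a, b) with ⟨a', b'⟩
  rw [hq] at h1 h2
  have h3 := mu_le a
  simp only [sz_pair, sz_bits] at *
  omega

/-- environments: lists of pairs (code of a variable, value) -/
abbrev Env := List (ℕ × ℕ)

/-- the value of a variable, the last entry wins -/
def look (e : Env) (c : ℕ) : ℕ := e.foldl (fun acc p => if p.1 = c then p.2 else acc) 0

theorem look_foldl (e : Env) (c v : ℕ) :
    e.foldl (fun (s : ℕ × ℕ) (p : ℕ × ℕ) => (s.1, if decide (p.1 = s.1) then p.2 else s.2))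
      (c, v) = (c, e.foldl (fun acc p => if p.1 = c then p.2 else acc) v) := by
  induction e generalizing v with
  | nil => rfl
  | cons p e ih =>
    rw [List.foldl_cons, ih]
    simp

theorem look_size (e : Env) (c v : ℕ) :
    sz (e.foldl (fun acc p => if p.1 = c then p.2 else acc) v) ≤ sz e + sz v := by
  induction e generalizing v with
  | nil => simp
  | cons p e ih =>
    rw [List.foldl_cons]
    refine (ih _).trans ?_
    obtain ⟨a, b⟩ := p
    simp only [sz_cons, sz_pair]
    split_ifs <;> omega

@[fun_prop]
theorem fp_look {f : α → Env} {g : α → ℕ} (hf : FP f) (hg : FP g) :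
    FP fun a => look (f a) (g a) := by
  have h1 : FP fun p : Env × (ℕ × ℕ) => p.1.foldl (fun (s : ℕ × ℕ) (p : ℕ × ℕ) =>
      (s.1, if decide (p.1 = s.1) then p.2 else s.2)) p.2 := by
    refine FP.foldl (g := fun (s : ℕ × ℕ) (p : ℕ × ℕ) =>
      (s.1, if decide (p.1 = s.1) then p.2 else s.2)) (by fun_prop) (B := fun n => 3 * n + 1)
      (by fun_prop) ?_
    rintro e ⟨c, v⟩
    rw [look_foldl]
    have := look_size e c v
    simp only [sz_pair]
    omega
  have h2 := h1.comp (hf.pair (hg.pair (FP.const 0)))
  refine (congrArg FP (funext fun a => ?_)).mp h2.snd'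
  simp only [look_foldl]
  rfl

/-- substitution of the values of the variables in a token -/
def res (p : Env × (ℕ × ℚ)) : Tk :=
  if decide (p.2.1 = 0) then (false, (false, qEl p.2.2))
  else if decide (p.2.1 = 1) then (true, (false, e0))
  else if decide (p.2.1 = 2) then (true, (true, e0))
  else (false, (false, ((look p.1 p.2.1, 0), 1)))

theorem fp_res' : FP res := by
  unfold res
  have h0 : FP fun p : Env × (ℕ × ℚ) => decide (p.2.1 = 0) := FP.natEq (by fun_prop) (FP.const 0)
  have h1 : FP fun p : Env × (ℕ × ℚ) => decide (p.2.1 = 1) := FP.natEq (by fun_prop) (FP.const 1)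
  have h2 : FP fun p : Env × (ℕ × ℚ) => decide (p.2.1 = 2) := FP.natEq (by fun_prop) (FP.const 2)
  have h3 : FP fun p : Env × (ℕ × ℚ) => ((false, (false, qEl p.2.2)) : Tk) :=
    FP.pair (FP.const false) (FP.pair (FP.const false) (by fun_prop))
  have h4 : FP fun p : Env × (ℕ × ℚ) => ((false, (false, ((look p.1 p.2.1, 0), 1))) : Tk) :=
    FP.pair (FP.const false) (FP.pair (FP.const false) (FP.pair (FP.pair (by fun_prop)
      (FP.const 0)) (FP.const 1)))
  exact FP.ite h0 h3 (FP.ite h1 (FP.const _) (FP.ite h2 (FP.const _) h4))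

/-- evaluation of the formula `w` at the environment `e`: the final stack, and the number of the
subformulas with a nonzero value -/
def run (w : List (ℕ × ℚ)) (e : Env) : List El × List Bool :=
  (w.map fun t => res (e, t)).foldl stp ([], [])

@[fun_prop]
theorem fp_run {f : α → List (ℕ × ℚ)} {g : α → Env} (hf : FP f) (hg : FP g) :
    FP fun a => run (f a) (g a) := by
  have h1 : FP fun p : Env × List (ℕ × ℚ) => p.2.map fun t => res (p.1, t) :=
    FP.map_ctx fp_res'
  exact fp_run'.comp ((h1.comp (hg.pair hf)).pair (FP.const (([] : List El), ([] : List Bool))))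

end

/-! ## Correctness -/

/-- the point of an environment -/
def pt (e : Env) : ℕ → ℚ := fun i => (look e (i + 3) : ℚ)

/-- the value of a formula -/
def evE (e : Env) : Fm → El
  | .const q => qEl q
  | .var i => ((look e (i + 3), 0), 1)
  | .add F G => elAdd (evE e G) (evE e F)
  | .mul F G => elMul (evE e G) (evE e F)

theorem evE_den (e : Env) (F : Fm) : (evE e F).2 ≠ 0 := by
  induction F with
  | const q => exact q.den_ne_zero
  | var i => exact one_ne_zero
  | add F G ihF ihG => exact mul_ne_zero ihG ihF
  | mul F G ihF ihG => exact mul_ne_zero ihG ihF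

theorem toQ_evE (e : Env) (F : Fm) : toQ (evE e F) = F.ev (pt e) := by
  induction F with
  | const q => exact toQ_qEl q
  | var i => simp [evE, toQ, Fm.ev, pt]
  | add F G ihF ihG =>
    rw [evE, toQ_add (evE_den e G) (evE_den e F), ihF, ihG, Fm.ev, add_comm]
  | mul F G ihF ihG =>
    rw [evE, toQ_mul, ihF, ihG, Fm.ev, mul_comm]

theorem evE_zero (e : Env) (F : Fm) :
    decide ((evE e F).1.1 = (evE e F).1.2) = decide (F.ev (pt e) = 0) := by
  rw [← toQ_evE]
  exact decide_eq_decide.mpr (toQ_eq_zero (evE_den e F)).symm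

theorem pot_add (γ : ℕ → ℚ) (F G : Fm) : pot γ (.add F G) =
    pot γ F + pot γ G + if (Fm.add F G).ev γ ≠ 0 then 1 else 0 := by
  unfold pot
  simp only [Fm.subs, List.countP_append, List.countP_singleton, decide_eq_true_eq]

theorem pot_mul (γ : ℕ → ℚ) (F G : Fm) : pot γ (.mul F G) =
    pot γ F + pot γ G + if (Fm.mul F G).ev γ ≠ 0 then 1 else 0 := by
  unfold pot
  simp only [Fm.subs, List.countP_append, List.countP_singleton, decide_eq_true_eq]

theorem pot_const (γ : ℕ → ℚ) (q : ℚ) : pot γ (.const q) =
    if (Fm.const q).ev γ ≠ 0 then 1 else 0 := by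
  unfold pot
  simp only [Fm.subs, List.countP_singleton, decide_eq_true_eq]

theorem pot_var (γ : ℕ → ℚ) (i : ℕ) : pot γ (.var i) =
    if (Fm.var i).ev γ ≠ 0 then 1 else 0 := by
  unfold pot
  simp only [Fm.subs, List.countP_singleton, decide_eq_true_eq]

theorem stp_eq (e : Env) (G : Fm) (s s' : List El) (c : List Bool) (t : Tk)
    (h : stk s' t = evE e G :: s) : stp (s', c) t =
      (evE e G :: s, List.replicate (if G.ev (pt e) ≠ 0 then 1 else 0) true ++ c) := by
  simp only [stp, h, List.headD_cons, evE_zero]
  by_cases h0 : G.ev (pt e) = 0 <;> simp [h0]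

theorem rep3 (a b c : ℕ) (l : List Bool) : List.replicate c true ++ (List.replicate b true ++
    (List.replicate a true ++ l)) = List.replicate (a + b + c) true ++ l := by
  rw [← List.append_assoc, ← List.replicate_add, ← List.append_assoc, ← List.replicate_add]
  congr 2
  omega

theorem run_eq (e : Env) (F : Fm) (s : List El) (c : List Bool) :
    (F.code.map fun t => res (e, t)).foldl stp (s, c) =
      (evE e F :: s, List.replicate (pot (pt e) F) true ++ c) := by
  induction F generalizing s c with
  | const q =>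
    simp only [Fm.code, List.map_cons, List.map_nil, List.foldl_cons, List.foldl_nil]
    rw [stp_eq e (.const q) s s c _ (by simp [res, stk, evE]), pot_const]
  | var i =>
    simp only [Fm.code, List.map_cons, List.map_nil, List.foldl_cons, List.foldl_nil]
    rw [stp_eq e (.var i) s s c _ (by simp [res, stk, evE]), pot_var]
  | add F G ihF ihG =>
    simp only [Fm.code, List.map_append, List.map_cons, List.map_nil, List.foldl_append,
      List.foldl_cons, List.foldl_nil]
    rw [ihF, ihG, stp_eq e (.add F G) s _ _ _ (by simp [res, stk, evE]), pot_add, rep3]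
  | mul F G ihF ihG =>
    simp only [Fm.code, List.map_append, List.map_cons, List.map_nil, List.foldl_append,
      List.foldl_cons, List.foldl_nil]
    rw [ihF, ihG, stp_eq e (.mul F G) s _ _ _ (by simp [res, stk, evE]), pot_mul, rep3]

theorem run_code (e : Env) (F : Fm) :
    run F.code e = ([evE e F], List.replicate (pot (pt e) F) true) := by
  rw [run, run_eq, List.append_nil]

theorem code_length (F : Fm) : F.code.length = F.subs.length := by
  induction F with
  | const q => rfl
  | var i => rfl
  | add F G ihF ihG => simp [Fm.code, Fm.subs, ihF, ihG]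
  | mul F G ihF ihG => simp [Fm.code, Fm.subs, ihF, ihG]

theorem size_le_code (F : Fm) : F.size ≤ F.code.length := by
  induction F with
  | const q => exact le_rfl
  | var i => exact le_rfl
  | add F G ihF ihG => simp only [Fm.code, Fm.size, List.length_append]; omega
  | mul F G ihF ihG => simp only [Fm.code, Fm.size, List.length_append]; omega

theorem pot_le (γ : ℕ → ℚ) (F : Fm) : pot γ F ≤ F.code.length := by
  rw [code_length]
  exact List.countP_le_length

theorem mem_code_of_mem_vars {F : Fm} {i : ℕ} (h : i ∈ F.vars) : i + 3 ∈ F.code.map Prod.fst := by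
  induction F with
  | const q => simp [Fm.vars] at h
  | var j =>
    have : i = j := by simpa [Fm.vars] using h
    simp [Fm.code, this]
  | add F G ihF ihG =>
    simp only [Fm.vars, Finset.mem_union] at h
    simp only [Fm.code, List.map_append, List.mem_append]
    rcases h with h | h
    · exact Or.inl (Or.inl (ihF h))
    · exact Or.inl (Or.inr (ihG h))
  | mul F G ihF ihG =>
    simp only [Fm.vars, Finset.mem_union] at h
    simp only [Fm.code, List.map_append, List.mem_append]
    rcases h with h | h
    · exact Or.inl (Or.inl (ihF h))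
    · exact Or.inl (Or.inr (ihG h))

end Pool.Agent.Helper6.WB
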