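import Pool.Agent.Helper6.WB.Eval

set_option autoImplicit false

/-!
Local search in polynomial time.
-/

namespace Pool.Agent.Helper6.WB

open Turing Function N487b59b3 N68a2faeb Pool.Agent.Helper22 Computability

section

variable {α β γ δ : Type} [N487b59b3 α] [N487b59b3 β] [N487b59b3 γ] [N487b59b3 δ]

omit [N487b59b3 β] [N487b59b3 γ] [N487b59b3 δ] in
theorem foldl_flatMap_ctx (h : γ × β → List δ) (l : List β) (c : γ) (acc : List δ) :
    l.foldl (fun (s : γ × List δ) (b : β) => (s.1, s.2 ++ h (s.1, b))) (c, acc) =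
      (c, acc ++ l.flatMap fun b => h (c, b)) := by
  induction l generalizing acc with
  | nil => simp
  | cons b l ih => simp [ih]

omit [N487b59b3 β] in
theorem sz_flatMap_le (f : β → List δ) (l : List β) (C : ℕ) (h : ∀ b ∈ l, sz (f b) ≤ C) :
    sz (l.flatMap f) ≤ l.length * C := by
  induction l with
  | nil => simp
  | cons a l ih =>
    have h1 := h a (by simp)
    have h2 := ih fun b hb => h b (by simp [hb])
    simp only [List.flatMap_cons, sz_append, List.length_cons]
    have h3 : (l.length + 1) * C = l.length * C + C := by ring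
    omega

theorem fp_flatMap_ctx [Inhabited β] {h : γ × β → List δ} (hh : FP h) :
    FP fun p : γ × List β => p.2.flatMap fun b => h (p.1, b) := by
  obtain ⟨B, hB, hBm, hBle⟩ := hh.bound
  have h1 : FP fun p : List β × (γ × List δ) =>
      p.1.foldl (fun (s : γ × List δ) (b : β) => (s.1, s.2 ++ h (s.1, b))) p.2 := by
    refine FP.foldl (g := fun (s : γ × List δ) (b : β) => (s.1, s.2 ++ h (s.1, b))) ?_
      (B := fun n => 2 * n + 1 + (n + n * B (3 * n + 1))) (by fun_prop) ?_
    · have h2 : FP fun p : (γ × List δ) × β => h (p.1.1, p.2) := hh.comp (by fun_prop)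
      fun_prop
    · rintro l ⟨c, acc⟩
      rw [foldl_flatMap_ctx]
      have h4 := sz_flatMap_le (fun b => h (c, b)) l (B (3 * (sz l + sz (c, acc)) + 1)) (by
        intro b hb
        refine (hBle _).trans (hBm ?_)
        have := sz_mem_le hb
        simp only [sz_pair]; omega)
      have h5 : l.length ≤ sz l + sz (c, acc) := by
        have := length_le_sz l
        omega
      have h6 := Nat.mul_le_mul_right (B (3 * (sz l + sz (c, acc)) + 1)) h5
      have h7 : 2 * sz c + 1 + sz acc ≤ sz l + sz (c, acc) := by
        simp only [sz_pair]; omega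
      rw [sz_pair, sz_append]
      generalize sz (c, acc) = N at *
      omega
  have h2 := FP.snd.comp (h1.comp (FP.pair (f := fun p : γ × List β => p.2) (by fun_prop)
    (FP.pair (f := fun p : γ × List β => p.1) (by fun_prop) (FP.const ([] : List δ)))))
  simp only [foldl_flatMap_ctx, List.nil_append] at h2
  exact h2

end

/-- the pairs (code of a variable, value) tried for the formula `w` -/
def prs (w : List (ℕ × ℚ)) : Env :=
  (0 :: w.map Prod.fst).flatMap fun c =>
    (List.range ((w.length + 1) * w.length + 1)).map fun v => (c, v)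

theorem mem_prs {w : List (ℕ × ℚ)} {p : ℕ × ℕ} : p ∈ prs w ↔
    (p.1 = 0 ∨ p.1 ∈ w.map Prod.fst) ∧ p.2 ≤ (w.length + 1) * w.length := by
  obtain ⟨c, v⟩ := p
  simp only [prs, List.mem_flatMap, List.mem_cons, List.mem_map, List.mem_range]
  constructor
  · rintro ⟨c', h1, v', h2, h3⟩
    obtain ⟨rfl, rfl⟩ := Prod.mk.inj h3
    exact ⟨h1, by omega⟩
  · rintro ⟨h1, h2⟩
    exact ⟨c, h1, v, by omega, rfl⟩

theorem fp_prs : FP prs := by
  have h1 : FP fun w : List (ℕ × ℚ) => un ((((Polynomial.X + 1) * Polynomial.X + 1 :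
      Polynomial ℕ)).eval w.length) := FP.un_poly FP.id _
  have h2 := FP.range h1
  have h3 : FP fun w : List (ℕ × ℚ) => List.range ((w.length + 1) * w.length + 1) := by
    refine (congrArg FP (funext fun w => ?_)).mp h2
    simp
  have h4 : FP fun w : List (ℕ × ℚ) => 0 :: w.map Prod.fst :=
    FP.cons (FP.const 0) (FP.map FP.fst FP.id)
  have h5 : FP fun p : List ℕ × ℕ => p.1.map fun v => ((p.2, v) : ℕ × ℕ) := by
    have h6 : FP fun p : ℕ × List ℕ => p.2.map fun v => (fun q : ℕ × ℕ => q) (p.1, v) :=
      FP.map_ctx FP.id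
    exact h6.comp (FP.pair FP.snd FP.fst)
  have h7 : FP fun p : List ℕ × List ℕ => p.2.flatMap fun c => (fun q : List ℕ × ℕ =>
      q.1.map fun v => ((q.2, v) : ℕ × ℕ)) (p.1, c) := fp_flatMap_ctx h5
  exact h7.comp (h3.pair h4)

/-- all lists of length `j` of elements of `P` -/
def mvs (P : Env) : ℕ → List Env
  | 0 => [[]]
  | j + 1 => (mvs P j).flatMap fun m => P.map fun p => p :: m

theorem mem_mvs {P : Env} {j : ℕ} {m : Env} : m ∈ mvs P j ↔ m.length = j ∧ ∀ p ∈ m, p ∈ P := by
  induction j generalizing m with
  | zero =>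
    simp only [mvs, List.mem_singleton]
    constructor
    · rintro rfl; simp
    · rintro ⟨h, -⟩; exact List.eq_nil_of_length_eq_zero h
  | succ j ih =>
    simp only [mvs, List.mem_flatMap, List.mem_map]
    constructor
    · rintro ⟨m', h1, p, h2, rfl⟩
      obtain ⟨h3, h4⟩ := ih.mp h1
      refine ⟨by simp [h3], ?_⟩
      intro q hq
      rcases List.mem_cons.mp hq with rfl | hq
      · exact h2
      · exact h4 q hq
    · rintro ⟨h1, h2⟩
      cases m with
      | nil => simp at h1
      | cons p m =>
        exact ⟨m, ih.mpr ⟨by simpa using h1, fun q hq => h2 q (List.mem_cons_of_mem _ hq)⟩, p,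
          h2 p List.mem_cons_self, rfl⟩

theorem fp_mvs (j : ℕ) : FP fun P : Env => mvs P j := by
  induction j with
  | zero => exact FP.const _
  | succ j ih =>
    have h1 : FP fun q : Env × Env => q.1.map fun p => p :: q.2 := by
      have h2 : FP fun p : Env × Env => p.2.map fun b => (fun q : Env × (ℕ × ℕ) => q.2 :: q.1)
        (p.1, b) := FP.map_ctx (FP.cons FP.snd FP.fst)
      exact h2.comp (FP.pair FP.snd FP.fst)
    have h3 : FP fun p : Env × List Env => p.2.flatMap fun m => (fun q : Env × Env =>
      q.1.map fun p => p :: q.2) (p.1, m) := fp_flatMap_ctx h1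
    exact h3.comp (FP.pair FP.id ih)

/-- candidates: potential and environment -/
abbrev Cd := List Bool × Env

/-- the better one of two candidates -/
def bst (a b : Cd) : Cd := if decide (b.1.length ≤ a.1.length) then a else b

theorem bst_mem (l : List Cd) (a : Cd) : l.foldl bst a = a ∨ l.foldl bst a ∈ l := by
  induction l generalizing a with
  | nil => exact Or.inl rfl
  | cons b l ih =>
    rw [List.foldl_cons]
    rcases ih (bst a b) with h | h
    · rw [h, bst]
      split_ifs
      · exact Or.inl rfl
      · exact Or.inr List.mem_cons_self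
    · exact Or.inr (List.mem_cons_of_mem _ h)

theorem bst_le (l : List Cd) (a : Cd) : a.1.length ≤ (l.foldl bst a).1.length ∧
    ∀ b ∈ l, b.1.length ≤ (l.foldl bst a).1.length := by
  induction l generalizing a with
  | nil => simp
  | cons b l ih =>
    rw [List.foldl_cons]
    obtain ⟨h1, h2⟩ := ih (bst a b)
    have h3 : a.1.length ≤ (bst a b).1.length ∧ b.1.length ≤ (bst a b).1.length := by
      unfold bst
      by_cases h : b.1.length ≤ a.1.length
      · simp [h]
      · simp only [h, decide_false, Bool.false_eq_true, if_false, le_refl, and_true]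
        omega
    refine ⟨h3.1.trans h1, ?_⟩
    intro c hc
    rcases List.mem_cons.mp hc with rfl | hc
    · exact h3.2.trans h1
    · exact h2 c hc

theorem bst_eq (l : List Cd) (a : Cd) : l.foldl bst a = a ∨
    a.1.length < (l.foldl bst a).1.length := by
  induction l generalizing a with
  | nil => exact Or.inl rfl
  | cons b l ih =>
    rw [List.foldl_cons]
    by_cases h : b.1.length ≤ a.1.length
    · have : bst a b = a := by unfold bst; simp [h]
      rw [this]
      exact ih a
    · have : bst a b = b := by unfold bst; simp [h]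
      rw [this]
      have := (bst_le l b).1
      right
      omega

instance : Inhabited Cd := ⟨([], [])⟩

theorem fp_bst : FP fun p : List Cd × Cd => p.1.foldl bst p.2 := by
  refine FP.foldl (g := bst) ?_ (B := fun n => n) (by fun_prop) ?_
  · unfold bst
    fun_prop
  · intro l a
    rcases bst_mem l a with h | h
    · rw [h]; omega
    · have := sz_mem_le h
      omega

/-- candidate of an environment -/
def cnd (w : List (ℕ × ℚ)) (e : Env) : Cd := ((run w e).2, e)

/-- the best candidate near `e` -/
def nxtE (κ : ℕ) (w : List (ℕ × ℚ)) (e : Env) : Cd :=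
  ((mvs (prs w) κ).map fun m => cnd w (e ++ m)).foldl bst (cnd w e)

theorem fp_nxtE (κ : ℕ) : FP fun p : List (ℕ × ℚ) × Env => nxtE κ p.1 p.2 := by
  have h1 : FP fun p : List (ℕ × ℚ) × Env => cnd p.1 p.2 := by
    unfold cnd
    fun_prop
  have h2 : FP fun p : (List (ℕ × ℚ) × Env) × Env => cnd p.1.1 (p.1.2 ++ p.2) :=
    h1.comp (f := fun p : (List (ℕ × ℚ) × Env) × Env => (p.1.1, p.1.2 ++ p.2)) (by fun_prop)
  have h3 : FP fun p : (List (ℕ × ℚ) × Env) × List Env => p.2.map fun m =>
      (fun q : (List (ℕ × ℚ) × Env) × Env => cnd q.1.1 (q.1.2 ++ q.2)) (p.1, m) := FP.map_ctx h2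
  have h4 : FP fun p : List (ℕ × ℚ) × Env => mvs (prs p.1) κ :=
    (fp_mvs κ).comp (fp_prs.comp FP.fst)
  exact fp_bst.comp ((h3.comp (FP.id.pair h4)).pair h1)

theorem nxtE_snd (κ : ℕ) (w : List (ℕ × ℚ)) (e : Env) :
    (nxtE κ w e).2 = e ∨ ∃ m ∈ mvs (prs w) κ, (nxtE κ w e).2 = e ++ m := by
  unfold nxtE
  rcases bst_mem ((mvs (prs w) κ).map fun m => cnd w (e ++ m)) (cnd w e) with h | h
  · rw [h]; exact Or.inl rfl
  · obtain ⟨m, hm, he⟩ := List.mem_map.mp h
    right
    exact ⟨m, hm, by rw [← he]; rfl⟩

theorem nxtE_fst (κ : ℕ) (w : List (ℕ × ℚ)) (e : Env) :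
    nxtE κ w e = cnd w (nxtE κ w e).2 := by
  unfold nxtE
  rcases bst_mem ((mvs (prs w) κ).map fun m => cnd w (e ++ m)) (cnd w e) with h | h
  · rw [h]; rfl
  · obtain ⟨m, hm, he⟩ := List.mem_map.mp h
    rw [← he]; rfl

/-- one round of the local search -/
def rnd (κ : ℕ) (p : List (ℕ × ℚ) × Env) : List (ℕ × ℚ) × Env := (p.1, (nxtE κ p.1 p.2).2)

theorem rnd_iter (κ : ℕ) (w : List (ℕ × ℚ)) (e : Env) (i : ℕ) :
    (rnd κ)^[i] (w, e) = (w, (fun e => (nxtE κ w e).2)^[i] e) := by
  induction i with
  | zero => rfl
  | succ i ih => rw [Function.iterate_succ_apply', ih, Function.iterate_succ_apply']; rfl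

theorem fp_climb (κ : ℕ) : FP fun p : List (ℕ × ℚ) × (List (ℕ × ℚ) × Env) =>
    (rnd κ)^[p.1.length] p.2 := by
  have hm : FP fun w : List (ℕ × ℚ) => mvs (prs w) κ := (fp_mvs κ).comp fp_prs
  obtain ⟨C, hC, hCm, hCle⟩ := hm.bound
  refine FP.iterate (f := rnd κ) ?_ (B := fun n => 2 * n + 1 + (n + n * C n)) (by fun_prop) ?_
  · unfold rnd
    exact FP.pair FP.fst (FP.snd' (fp_nxtE κ))
  · rintro l ⟨w, e⟩ i hi
    rw [rnd_iter]
    have h1 : sz ((fun e => (nxtE κ w e).2)^[i] e) ≤ sz e + i * C (sz w) := by
      clear hi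
      induction i with
      | zero => simp
      | succ i ih =>
        rw [Function.iterate_succ_apply']
        have h2 : ∀ e', sz (nxtE κ w e').2 ≤ sz e' + C (sz w) := by
          intro e'
          rcases nxtE_snd κ w e' with h | ⟨m, hm, h⟩
          · rw [h]; omega
          · rw [h, sz_append]
            have := (sz_mem_le hm).trans (hCle w)
            omega
        have h3 := h2 ((fun e => (nxtE κ w e).2)^[i] e)
        have h4 : (i + 1) * C (sz w) = i * C (sz w) + C (sz w) := by ring
        omega
    have h0 := length_le_sz l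
    have h5 : i * C (sz w) ≤ (sz l + sz (w, e)) * C (sz l + sz (w, e)) :=
      Nat.mul_le_mul (by omega) (hCm (by simp only [sz_pair]; omega))
    rw [sz_pair]
    have h6 : 2 * sz w + 1 + sz e ≤ sz l + sz (w, e) := by
      simp only [sz_pair]; omega
    generalize sz (w, e) = N at *
    omega

/-- the final environment -/
def fin (κ : ℕ) (w : List (ℕ × ℚ)) : Env := (fun e => (nxtE κ w e).2)^[w.length + 1] []

theorem fp_fin (κ : ℕ) : FP (fin κ) := by
  have h1 : FP fun w : List (ℕ × ℚ) => (0, 0) :: w := FP.cons (FP.const _) FP.id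
  have h2 := (fp_climb κ).comp (h1.pair (FP.id.pair (FP.const ([] : Env))))
  refine (congrArg FP (funext fun w => ?_)).mp h2.snd'
  rw [rnd_iter]
  rfl

/-- the decision algorithm -/
def dec (κ : ℕ) (w : List (ℕ × ℚ)) : Bool :=
  decide (((run w (fin κ w)).1.headD e0).1.1 = ((run w (fin κ w)).1.headD e0).1.2)

theorem fp_dec (κ : ℕ) : FP (dec κ) := by
  have h0 := fp_fin κ
  have h1 : FP fun w => (run w (fin κ w)).1.headD e0 := FP.headD (by fun_prop) _
  exact FP.natEq h1.fst'.fst' h1.fst'.snd'

/-! ## Correctness -/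

theorem cnd_length (F : Fm) (e : Env) : (cnd F.code e).1.length = pot (pt e) F := by
  rw [cnd, run_code, List.length_replicate]

theorem fix_of_measure {α : Type} (f : α → α) (μ : α → ℕ) (N : ℕ) (hN : ∀ a, μ a ≤ N)
    (h : ∀ a, f a = a ∨ μ a < μ (f a)) (a : α) : f (f^[N + 1] a) = f^[N + 1] a := by
  have key : ∀ i, f (f^[i] a) = f^[i] a ∨ i ≤ μ (f^[i] a) := by
    intro i
    induction i with
    | zero => exact Or.inr (Nat.zero_le _)
    | succ i ih =>
      rcases ih with h1 | h1
      · left
        rw [Function.iterate_succ_apply', h1, h1]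
      · rcases h (f^[i] a) with h2 | h2
        · left
          rw [Function.iterate_succ_apply', h2, h2]
        · right
          rw [Function.iterate_succ_apply']
          omega
  rcases key (N + 1) with h1 | h1
  · exact h1
  · have := hN (f^[N + 1] a)
    omega

theorem fin_fix (κ : ℕ) (F : Fm) : (nxtE κ F.code (fin κ F.code)).2 = fin κ F.code := by
  refine fix_of_measure (fun e => (nxtE κ F.code e).2) (fun e => pot (pt e) F) F.code.length
    (fun e => pot_le _ _) ?_ []
  intro e
  rcases bst_eq ((mvs (prs F.code) κ).map fun m => cnd F.code (e ++ m)) (cnd F.code e) with h | h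
  · left
    rw [nxtE, h]
    rfl
  · right
    have h1 : (cnd F.code e).1.length < (nxtE κ F.code e).1.length := h
    rw [nxtE_fst, cnd_length, cnd_length] at h1
    exact h1

theorem look_aux (L : Env) (c v acc : ℕ) (h1 : ∀ p ∈ L, p.1 = c → p.2 = v)
    (h2 : acc = v ∨ ∃ p ∈ L, p.1 = c) :
    L.foldl (fun acc p => if p.1 = c then p.2 else acc) acc = v := by
  induction L generalizing acc with
  | nil =>
    rcases h2 with h2 | ⟨p, hp, -⟩
    · exact h2
    · simp at hp
  | cons p L ih =>
    rw [List.foldl_cons]
    apply ih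
    · exact fun q hq => h1 q (List.mem_cons_of_mem _ hq)
    · by_cases hp : p.1 = c
      · left
        rw [if_pos hp]
        exact h1 p List.mem_cons_self hp
      · rw [if_neg hp]
        rcases h2 with h2 | ⟨q, hq, hqc⟩
        · exact Or.inl h2
        · rcases List.mem_cons.mp hq with rfl | hq
          · exact absurd hqc hp
          · exact Or.inr ⟨q, hq, hqc⟩

theorem locMax_of_fix {κ : ℕ} {F : Fm} {e : Env} (h : (nxtE κ F.code e).2 = e) :
    IsLocMax F κ ((F.code.length + 1) * F.code.length) (pt e) := by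
  classical
  intro x S hS hc hx hv
  choose! v hvB hxv using hv
  set m : Env := (S.toList.map fun i => (i + 3, v i)) ++
    List.replicate (κ - S.card) ((0, 0) : ℕ × ℕ) with hm
  have hmem : m ∈ mvs (prs F.code) κ := by
    rw [mem_mvs]
    constructor
    · rw [hm, List.length_append, List.length_map, List.length_replicate, Finset.length_toList]
      omega
    · intro p hp
      rw [mem_prs]
      rw [hm, List.mem_append] at hp
      rcases hp with hp | hp
      · obtain ⟨i, hi, rfl⟩ := List.mem_map.mp hp
        rw [Finset.mem_toList] at hi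
        exact ⟨Or.inr (mem_code_of_mem_vars (hS hi)), hvB i hi⟩
      · have := List.eq_of_mem_replicate hp
        subst this
        exact ⟨Or.inl rfl, Nat.zero_le _⟩
  have hpt : pt (e ++ m) = x := by
    funext i
    by_cases hi : i ∈ S
    · rw [hxv i hi]
      unfold pt
      rw [look, List.foldl_append]
      rw [look_aux m (i + 3) (v i)]
      · intro p hp hpi
        rw [hm, List.mem_append] at hp
        rcases hp with hp | hp
        · obtain ⟨j, hj, rfl⟩ := List.mem_map.mp hp
          simp only at hpi ⊢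
          have : j = i := by omega
          rw [this]
        · have := List.eq_of_mem_replicate hp
          subst this
          simp at hpi
      · right
        refine ⟨(i + 3, v i), ?_, rfl⟩
        rw [hm, List.mem_append, List.mem_map]
        exact Or.inl ⟨i, Finset.mem_toList.mpr hi, rfl⟩
    · rw [hx i hi]
      unfold pt
      rw [look, List.foldl_append]
      rw [look_aux m (i + 3) (look e (i + 3))]
      · intro p hp hpi
        rw [hm, List.mem_append] at hp
        rcases hp with hp | hp
        · obtain ⟨j, hj, rfl⟩ := List.mem_map.mp hp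
          simp only at hpi
          have : j = i := by omega
          rw [Finset.mem_toList, this] at hj
          exact absurd hj hi
        · have := List.eq_of_mem_replicate hp
          subst this
          simp at hpi
      · exact Or.inl rfl
  have h1 := (bst_le ((mvs (prs F.code) κ).map fun m => cnd F.code (e ++ m))
    (cnd F.code e)).2 (cnd F.code (e ++ m)) (List.mem_map_of_mem hmem)
  have h2 : (cnd F.code (e ++ m)).1.length ≤ (nxtE κ F.code e).1.length := h1
  rw [nxtE_fst, h, cnd_length, cnd_length, hpt] at h2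
  exact h2

theorem dec_correct {k : ℕ} {F : Fm} (hk : ∀ i, F.reads i ≤ k) :
    dec (kappa (k + 1)) F.code = true ↔ F.poly = 0 := by
  have h1 := locMax_of_fix (fin_fix (kappa (k + 1)) F)
  have hB : (F.subs.length + 1) * F.size ≤ (F.code.length + 1) * F.code.length := by
    rw [← code_length]
    exact Nat.mul_le_mul_left _ (size_le_code F)
  rw [poly_eq_zero_iff hk hB h1, dec, run_code, List.headD_cons, evE_zero, decide_eq_true_iff]

theorem main (k : ℕ) : ∃ f : List (ℕ × ℚ) → Bool, IsPolyTime f ∧
    ∀ F : Fm, (∀ i, F.reads i ≤ k) → (f F.code = true ↔ F.poly = 0) :=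
  ⟨dec (kappa (k + 1)), (isPolyTime_iff _).mpr (fp_dec _), fun _ hk => dec_correct hk⟩

end Pool.Agent.Helper6.WB
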