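import Pool.Agent.Helper6.WB.Near

/-!
Formulas as programs, and the near point theorem for formulas.
-/

namespace Pool.Agent.Helper6.WB

open Module Matrix Pool.Agent.Helper8 Pool.Agent.Helper8.Tree

namespace Fm

/-- value at a point -/
def ev (g : ℕ → ℚ) : Fm → ℚ
  | const q => q
  | var i => g i
  | add F G => F.ev g + G.ev g
  | mul F G => F.ev g * G.ev g

theorem eval_poly (g : ℕ → ℚ) (F : Fm) : MvPolynomial.eval g F.poly = F.ev g := by
  induction F with
  | const q => simp [poly, ev]
  | var i => simp [poly, ev]
  | add F G ihF ihG => simp [poly, ev, ihF, ihG]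
  | mul F G ihF ihG => simp [poly, ev, ihF, ihG]

/-- number of leaves -/
def size : Fm → ℕ
  | const _ => 1
  | var _ => 1
  | add F G => F.size + G.size
  | mul F G => F.size + G.size

theorem size_pos (F : Fm) : 0 < F.size := by
  induction F with
  | const q => exact Nat.one_pos
  | var i => exact Nat.one_pos
  | add F G ihF ihG => simp only [size]; omega
  | mul F G ihF ihG => simp only [size]; omega

theorem ev_congr {g g' : ℕ → ℚ} {F : Fm} (h : ∀ i ∈ F.vars, g i = g' i) : F.ev g = F.ev g' := by
  induction F with
  | const q => rfl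
  | var i => exact h i (by simp [vars])
  | add F G ihF ihG =>
    simp only [ev]
    rw [ihF fun i hi => h i (by simp [vars, hi]), ihG fun i hi => h i (by simp [vars, hi])]
  | mul F G ihF ihG =>
    simp only [ev]
    rw [ihF fun i hi => h i (by simp [vars, hi]), ihG fun i hi => h i (by simp [vars, hi])]

/-- all subformulas (with repetitions), in postorder -/
def subs : Fm → List Fm
  | const q => [const q]
  | var i => [var i]
  | add F G => F.subs ++ G.subs ++ [add F G]
  | mul F G => F.subs ++ G.subs ++ [mul F G]

/-- every subformula of `F` which vanishes at `γ` is identically zero -/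
def AllOk (γ : ℕ → ℚ) (F : Fm) : Prop := ∀ G ∈ F.subs, G.ev γ = 0 → ∀ g, G.ev g = 0

/-- the same for the proper subformulas -/
def ProperOk (γ : ℕ → ℚ) : Fm → Prop
  | const _ => True
  | var _ => True
  | add F G => AllOk γ F ∧ AllOk γ G
  | mul F G => AllOk γ F ∧ AllOk γ G

theorem self_mem_subs (F : Fm) : F ∈ F.subs := by
  cases F <;> simp [subs]

theorem AllOk.proper {γ : ℕ → ℚ} {F : Fm} (h : AllOk γ F) : ProperOk γ F := by
  cases F with
  | const q => trivial
  | var i => trivial
  | add F G => exact ⟨fun H hH => h H (by simp [subs, hH]), fun H hH => h H (by simp [subs, hH])⟩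
  | mul F G => exact ⟨fun H hH => h H (by simp [subs, hH]), fun H hH => h H (by simp [subs, hH])⟩

/-- a formula in one variable, as a univariate polynomial -/
theorem exists_univ (i : ℕ) (F : Fm) (h : F.vars ⊆ {i}) :
    ∃ P : Polynomial ℚ, ∀ g : ℕ → ℚ, F.ev g = P.eval (g i) := by
  induction F with
  | const q => exact ⟨Polynomial.C q, fun g => by simp [ev]⟩
  | var j =>
    have : j = i := by simpa [vars] using h
    subst this
    exact ⟨Polynomial.X, fun g => by simp [ev]⟩
  | add F G ihF ihG =>
    obtain ⟨P, hP⟩ := ihF (Finset.union_subset_left h)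
    obtain ⟨Q, hQ⟩ := ihG (Finset.union_subset_right h)
    exact ⟨P + Q, fun g => by simp [ev, hP, hQ]⟩
  | mul F G ihF ihG =>
    obtain ⟨P, hP⟩ := ihF (Finset.union_subset_left h)
    obtain ⟨Q, hQ⟩ := ihG (Finset.union_subset_right h)
    exact ⟨P * Q, fun g => by simp [ev, hP, hQ]⟩

end Fm

open Fm

variable {n : ℕ}

/-- extension of a point -/
def ext (g : Fin n → ℚ) : ℕ → ℚ := fun i => if h : i < n then g ⟨i, h⟩ else 0

/-- what is needed of the program of a formula -/
def IsProg (m o : ℕ) (F : Fm) (T : Prog ℚ 2 n) : Prop :=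
  Aff T ∧ (∀ g, T.val g 1 = F.ev (ext g)) ∧ (∀ i : Fin n, i.val < m → T.cnt i ≤ F.reads i) ∧
    (∀ i : Fin n, m ≤ i.val →
      T.cnt i ≤ if m + o ≤ i.val ∧ i.val < m + o + F.size then 1 else 0) ∧
    ∀ γ : ℕ → ℚ, ProperOk γ F → Ok (fun i => γ i) T

theorem isProg_const {m o : ℕ} {F : Fm} (h : F.vars = ∅) (hn : m + o + F.size ≤ n) :
    ∃ T : Prog ℚ 2 n, IsProg m o F T := by
  have hs := F.size_pos
  refine ⟨Prog.leaf ⟨m + o, by omega⟩ ![1, Polynomial.C (F.ev 0)],
    Aff.leaf _ _ rfl, ?_, ?_, ?_, fun _ _ => trivial⟩
  · intro g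
    simp only [Prog.val, Matrix.cons_val_one, Matrix.cons_val_fin_one, Polynomial.eval_C]
    exact ev_congr fun i hi => by simp [h] at hi
  · intro i hi
    have : (⟨m + o, by omega⟩ : Fin n) ≠ i := by
      intro e; rw [← e] at hi; simp at hi
    simp [Prog.cnt, this]
  · intro i hi
    by_cases e : (⟨m + o, by omega⟩ : Fin n) = i
    · have e' : i.val = m + o := by rw [← e]
      rw [e']
      simp only [Prog.cnt, e, if_true]
      rw [if_pos ⟨le_rfl, by omega⟩]
    · simp [Prog.cnt, e]

theorem isProg_univ {m o : ℕ} {F : Fm} {j : ℕ} (h : F.vars = {j}) (hj : j < m)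
    (hr : 1 ≤ F.reads j) (hn : m + o + F.size ≤ n) :
    ∃ T : Prog ℚ 2 n, IsProg m o F T := by
  obtain ⟨P, hP⟩ := exists_univ j F h.subset
  refine ⟨Prog.leaf ⟨j, by omega⟩ ![1, P], Aff.leaf _ _ rfl, ?_, ?_, ?_, fun _ _ => trivial⟩
  · intro g
    simp only [Prog.val, Matrix.cons_val_one, Matrix.cons_val_fin_one]
    rw [hP]
    unfold ext
    rw [dif_pos (show j < n by omega)]
  · intro i hi
    by_cases e : (⟨j, by omega⟩ : Fin n) = i
    · have e' : i.val = j := by rw [← e]
      rw [e']
      simp only [Prog.cnt, e, if_true]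
      exact hr
    · simp [Prog.cnt, e]
  · intro i hi
    have : (⟨j, by omega⟩ : Fin n) ≠ i := by
      intro e; rw [← e] at hi; simp at hi; omega
    simp [Prog.cnt, this]

theorem reads_of_vars_eq {F : Fm} {j : ℕ} (h : F.vars = {j}) : F.reads j = 1 := by
  cases F with
  | const q => simp [vars] at h
  | var i =>
    have : i = j := by simpa [vars] using h
    simp [reads, this]
  | add F G => simp only [vars] at h; simp [reads, h]
  | mul F G => simp only [vars] at h; simp [reads, h]

theorem exists_isProg {m : ℕ} : ∀ (F : Fm) (o : ℕ), (∀ i ∈ F.vars, i < m) →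
    m + o + F.size ≤ n → ∃ T : Prog ℚ 2 n, IsProg m o F T := by
  intro F
  induction F with
  | const q => intro o _ hn; exact isProg_const rfl hn
  | var i =>
    intro o h hn
    exact isProg_univ rfl (h i (by simp [vars])) (reads_of_vars_eq rfl).ge hn
  | add F G ihF ihG =>
    intro o h hn
    by_cases h0 : (F.add G).vars = ∅
    · exact isProg_const h0 hn
    by_cases h1 : ∃ j, (F.add G).vars = {j}
    · obtain ⟨j, hj⟩ := h1
      exact isProg_univ hj (h j (by simp [hj])) (reads_of_vars_eq hj).ge hn
    · push Not at h1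
      simp only [size] at hn
      obtain ⟨T, a1, a2, a3, a4, a5⟩ := ihF o (fun i hi => h i (by simp [vars, hi])) (by omega)
      obtain ⟨T', b1, b2, b3, b4, b5⟩ := ihG (o + F.size) (fun i hi => h i (by simp [vars, hi]))
        (by omega)
      refine ⟨Prog.node addB T T', Aff.add a1 b1, ?_, ?_, ?_, ?_⟩
      · intro g
        rw [val_add a1 b1, a2, b2]; rfl
      · intro i hi
        have := h1 i
        simp only [vars] at this
        simp only [Prog.cnt, reads, if_neg this]
        exact Nat.add_le_add (a3 i hi) (b3 i hi)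
      · intro i hi
        have := a4 i hi
        have := b4 i hi
        simp only [Prog.cnt, size]
        split_ifs at * <;> omega
      · intro γ hγ
        obtain ⟨c1, c2⟩ := hγ
        refine ⟨a5 γ c1.proper, b5 γ c2.proper, ?_, ?_⟩
        · intro h2 g
          rw [a2] at h2 ⊢
          refine c1 F F.self_mem_subs ?_ _
          rw [← h2]
          apply ev_congr
          intro i hi
          have := h i (by simp [vars, hi])
          unfold ext
          rw [dif_pos (show i < n by omega)]
        · intro h2 g
          rw [b2] at h2 ⊢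
          refine c2 G G.self_mem_subs ?_ _
          rw [← h2]
          apply ev_congr
          intro i hi
          have := h i (by simp [vars, hi])
          unfold ext
          rw [dif_pos (show i < n by omega)]
  | mul F G ihF ihG =>
    intro o h hn
    by_cases h0 : (F.mul G).vars = ∅
    · exact isProg_const h0 hn
    by_cases h1 : ∃ j, (F.mul G).vars = {j}
    · obtain ⟨j, hj⟩ := h1
      exact isProg_univ hj (h j (by simp [hj])) (reads_of_vars_eq hj).ge hn
    · push Not at h1
      simp only [size] at hn
      obtain ⟨T, a1, a2, a3, a4, a5⟩ := ihF o (fun i hi => h i (by simp [vars, hi])) (by omega)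
      obtain ⟨T', b1, b2, b3, b4, b5⟩ := ihG (o + F.size) (fun i hi => h i (by simp [vars, hi]))
        (by omega)
      refine ⟨Prog.node mulB T T', Aff.mul a1 b1, ?_, ?_, ?_, ?_⟩
      · intro g
        rw [val_mul, a2, b2]; rfl
      · intro i hi
        have := h1 i
        simp only [vars] at this
        simp only [Prog.cnt, reads, if_neg this]
        exact Nat.add_le_add (a3 i hi) (b3 i hi)
      · intro i hi
        have := a4 i hi
        have := b4 i hi
        simp only [Prog.cnt, size]
        split_ifs at * <;> omega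
      · intro γ hγ
        obtain ⟨c1, c2⟩ := hγ
        refine ⟨a5 γ c1.proper, b5 γ c2.proper, ?_, ?_⟩
        · intro h2 g
          rw [a2] at h2 ⊢
          refine c1 F F.self_mem_subs ?_ _
          rw [← h2]
          apply ev_congr
          intro i hi
          have := h i (by simp [vars, hi])
          unfold ext
          rw [dif_pos (show i < n by omega)]
        · intro h2 g
          rw [b2] at h2 ⊢
          refine c2 G G.self_mem_subs ?_ _
          rw [← h2]
          apply ev_congr
          intro i hi
          have := h i (by simp [vars, hi])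
          unfold ext
          rw [dif_pos (show i < n by omega)]

/-- **Near points.** -/
theorem fm_near {k : ℕ} (F : Fm) (hk : ∀ i, F.reads i ≤ k) (γ : ℕ → ℚ) (hγ : ProperOk γ F)
    (hx : ∃ x, F.ev x ≠ 0) :
    ∃ (x : ℕ → ℚ) (S : Finset ℕ), S ⊆ F.vars ∧ S.card ≤ kappa (k + 1) ∧
      (∀ i, i ∉ S → x i = γ i) ∧ F.ev x ≠ 0 := by
  classical
  set m := F.vars.sup id + 1 with hm
  have hvm : ∀ i ∈ F.vars, i < m := by
    intro i hi
    have := Finset.le_sup (f := id) hi
    simp only [id] at this
    omega
  obtain ⟨T, h1, h2, h3, h4, h5⟩ := exists_isProg (n := m + 0 + F.size) F 0 hvm le_rfl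
  obtain ⟨x', S', hS', hx', hne⟩ := prog_near (k := k + 1) T (by
    intro i
    by_cases hi : i.val < m
    · exact (h3 i hi).trans ((hk i).trans (Nat.le_succ k))
    · refine (h4 i (by omega)).trans ?_
      split_ifs <;> omega) (fun i => γ i) (allGood_of_ok h1 (h5 γ hγ)) ![0, 1] (by
    obtain ⟨x, hx⟩ := hx
    refine ⟨fun i => x i, ?_⟩
    have e : (![0, 1] : Fin 2 → ℚ) ⬝ᵥ T.val (fun i => x i) = T.val (fun i => x i) 1 := by
      simp [dotProduct, Fin.sum_univ_two]
    rw [e, h2]
    have : F.ev (ext fun i : Fin (m + 0 + F.size) => x i) = F.ev x := by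
      apply ev_congr
      intro i hi
      unfold ext
      rw [dif_pos (show i < m + 0 + F.size by have := hvm i hi; omega)]
    rwa [this])
  have e : (![0, 1] : Fin 2 → ℚ) ⬝ᵥ T.val x' = T.val x' 1 := by
    simp [dotProduct, Fin.sum_univ_two]
  rw [e, h2] at hne
  refine ⟨fun i => if i ∈ F.vars then ext x' i else γ i,
    F.vars.filter (fun i => ext x' i ≠ γ i), Finset.filter_subset _ _, ?_, ?_, ?_⟩
  · refine (Finset.card_le_card_of_injOn (fun i => (Fin.ofNat (m + 0 + F.size) i))
      (t := S') ?_ ?_).trans hS'
    · intro i hi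
      rw [Finset.mem_coe, Finset.mem_filter] at hi
      have hin : i < m + 0 + F.size := by have := hvm i hi.1; omega
      rw [Finset.mem_coe]
      by_contra hcon
      apply hi.2
      have h6 := hx' _ hcon
      unfold ext
      rw [dif_pos hin]
      have e2 : (Fin.ofNat (m + 0 + F.size) i) = ⟨i, hin⟩ := by
        apply Fin.ext
        simp only [Fin.ofNat]
        exact Nat.mod_eq_of_lt hin
      simp only [e2] at h6
      exact h6
    · intro i hi j hj hij
      rw [Finset.mem_coe, Finset.mem_filter] at hi hj
      have h6 : i < m + 0 + F.size := by have := hvm i hi.1; omega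
      have h7 : j < m + 0 + F.size := by have := hvm j hj.1; omega
      have h8 := congrArg Fin.val hij
      simp only [Fin.ofNat] at h8
      rwa [Nat.mod_eq_of_lt h6, Nat.mod_eq_of_lt h7] at h8
  · intro i hi
    by_cases h6 : i ∈ F.vars
    · simp only [h6, if_true]
      by_contra hcon
      exact hi (by rw [Finset.mem_filter]; exact ⟨h6, hcon⟩)
    · simp only [h6, if_false]
  · intro h6
    apply hne
    rw [← h6]
    apply ev_congr
    intro i hi
    simp only [hi, if_true]

end Pool.Agent.Helper6.WB
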