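import Pool.Agent.Helper6.WB.Defs
import Pool.Agent.Helper8.Tree.Main

/-!
A formula all of whose proper subformulas are nonzero at a point, if they are not identically
zero, is nonzero at a point differing from it in boundedly many coordinates.
-/

namespace Pool.Agent.Helper6.WB

open Module Matrix Pool.Agent.Helper8 Pool.Agent.Helper8.Tree

section ProgNear

variable {w n : ℕ}

/-- number of coordinates to be changed -/
def kappa (k : ℕ) : ℕ := (bnd k).1 (q0 2 (4 * 2 ^ k))

theorem prog_near {k : ℕ} (T : Prog ℚ 2 n) (hk : ∀ i, T.cnt i ≤ k) (γ : Fin n → ℚ)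
    (hgood : AllGood γ T) (u : Fin 2 → ℚ) (hx : ∃ x, u ⬝ᵥ T.val x ≠ 0) :
    ∃ (x' : Fin n → ℚ) (S : Finset (Fin n)), S.card ≤ kappa k ∧ (∀ i, i ∉ S → x' i = γ i) ∧
      u ⬝ᵥ T.val x' ≠ 0 := by
  classical
  have : Inhabited (Frame ℚ 2 n) := ⟨(0, T)⟩
  let H : Matrix (Fin 2) (Fin 1) ℚ →ₗ[ℚ] Matrix (Fin 1) (Fin 1) ℚ :=
    { toFun := fun X => Matrix.of fun _ _ => u ⬝ᵥ fun i => X i 0
      map_add' := fun X Y => by
        ext a b
        simp only [Matrix.of_apply, Matrix.add_apply, dotProduct]
        rw [← Finset.sum_add_distrib]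
        apply Finset.sum_congr rfl
        intro i _; ring
      map_smul' := fun c X => by
        ext a b
        simp only [Matrix.of_apply, Matrix.smul_apply, dotProduct, smul_eq_mul,
          RingHom.id_apply, Finset.mul_sum]
        apply Finset.sum_congr rfl
        intro i _; ring }
  have hH : ∀ g, (H (col (T.val g))).det = u ⬝ᵥ T.val g := by
    intro g
    rw [Matrix.det_fin_one]
    rfl
  obtain ⟨x', S, hS, h1, h2⟩ := crit_gen (w := 2) T γ (by norm_num)
    (fun g => H (col (T.val g)))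
    (∑ a, MvPolynomial.C (u a) * T.poly a) (by
      intro g
      rw [hH]
      simp only [map_sum, map_mul, MvPolynomial.eval_C, T.eval_poly]
      rfl) (bnd k).1 (4 * 2 ^ k)
    (fun y S htr => ((RA.tree (htr.mixHG (Path.nil T) hgood) hk).mono (by
      have := Nat.one_le_two_pow (n := k)
      omega)).linear H) (by
      obtain ⟨x, hx⟩ := hx
      exact ⟨x, by rw [hH]; exact hx⟩)
  rw [hH] at h2
  exact ⟨x', S, hS, h1, h2⟩

/-- additions and multiplications as bilinear maps on vectors `(1, x)` -/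
def addB : Fin 2 → Fin 2 → Fin 2 → ℚ := fun a b c =>
  if a = 0 then (if b = 0 ∧ c = 0 then 1 else 0) else (if b = c then 0 else 1)

def mulB : Fin 2 → Fin 2 → Fin 2 → ℚ := fun a b c => if a = b ∧ b = c then 1 else 0

/-- programs made of additions and multiplications -/
inductive Aff : Prog ℚ 2 n → Prop
  | leaf (i : Fin n) (F : Fin 2 → Polynomial ℚ) (hF : F 0 = 1) : Aff (Prog.leaf i F)
  | add {l r : Prog ℚ 2 n} : Aff l → Aff r → Aff (Prog.node addB l r)
  | mul {l r : Prog ℚ 2 n} : Aff l → Aff r → Aff (Prog.node mulB l r)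

theorem Aff.val_zero {T : Prog ℚ 2 n} (h : Aff T) (g : Fin n → ℚ) : T.val g 0 = 1 := by
  induction h with
  | leaf i F hF => simp [Prog.val, hF]
  | add _ _ ih1 ih2 => simp [Prog.val, addB, ih1, ih2, Fin.sum_univ_two]
  | mul _ _ ih1 ih2 => simp [Prog.val, mulB, ih1, ih2, Fin.sum_univ_two]

theorem val_add {l r : Prog ℚ 2 n} (hl : Aff l) (hr : Aff r) (g : Fin n → ℚ) :
    (Prog.node addB l r).val g 1 = l.val g 1 + r.val g 1 := by
  simp [Prog.val, addB, hl.val_zero, hr.val_zero, Fin.sum_univ_two, add_comm]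

theorem val_mul {l r : Prog ℚ 2 n} (g : Fin n → ℚ) :
    (Prog.node mulB l r).val g 1 = l.val g 1 * r.val g 1 := by
  simp [Prog.val, mulB, Fin.sum_univ_two]

/-- if a child is not identically zero then it is nonzero at `γ`, everywhere in the program -/
def Ok (γ : Fin n → ℚ) : Prog ℚ 2 n → Prop
  | Prog.leaf _ _ => True
  | Prog.node _ l r => Ok γ l ∧ Ok γ r ∧ (l.val γ 1 = 0 → ∀ g, l.val g 1 = 0) ∧
      (r.val γ 1 = 0 → ∀ g, r.val g 1 = 0)

/-- the matrix of a path is lower triangular with first diagonal entry `1`, and its second diagonal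
entry vanishes at `γ` only if it vanishes identically -/
theorem path_aff {γ : Fin n → ℚ} {T u : Prog ℚ 2 n} {D : List (Frame ℚ 2 n)} (hT : Aff T)
    (hok : Ok γ T) (h : Path T D u) :
    (∀ g, cmat D g 0 0 = 1 ∧ cmat D g 0 1 = 0) ∧
      (cmat D γ 1 1 = 0 → ∀ g, cmat D g 1 1 = 0) := by
  induction h with
  | nil T => simp [cmat_nil]
  | @left B l r C T' h ih =>
    cases hT with
    | add hl hr =>
      obtain ⟨h1, h2⟩ := ih hl hok.1
      constructor
      · intro g
        simp [cmat_cons, Matrix.mul_apply, Fin.sum_univ_two, fmat, addB, h1 g, hr.val_zero]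
      · intro h3 g
        have e : ∀ g, cmat ((addB, r) :: C) g 1 1 = cmat C g 1 1 := by
          intro g
          simp [cmat_cons, Matrix.mul_apply, Fin.sum_univ_two, fmat, addB, h1 g, hr.val_zero]
        rw [e] at h3 ⊢
        exact h2 h3 g
    | mul hl hr =>
      obtain ⟨h1, h2⟩ := ih hl hok.1
      have e : ∀ g, cmat ((mulB, r) :: C) g 1 1 = r.val g 1 * cmat C g 1 1 := by
        intro g
        simp [cmat_cons, Matrix.mul_apply, Fin.sum_univ_two, fmat, mulB, h1 g]
      constructor
      · intro g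
        simp [cmat_cons, Matrix.mul_apply, Fin.sum_univ_two, fmat, mulB, h1 g, hr.val_zero]
      · intro h3 g
        rw [e, mul_eq_zero] at h3
        rw [e]
        rcases h3 with h3 | h3
        · rw [hok.2.2.2 h3 g, zero_mul]
        · rw [h2 h3 g, mul_zero]
  | @right B l r C T' h ih =>
    cases hT with
    | add hl hr =>
      obtain ⟨h1, h2⟩ := ih hr hok.2.1
      constructor
      · intro g
        simp [cmat_cons, Matrix.mul_apply, Fin.sum_univ_two, fmat, addB, h1 g, hl.val_zero]
      · intro h3 g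
        have e : ∀ g, cmat ((fun a b c => addB a c b, l) :: C) g 1 1 = cmat C g 1 1 := by
          intro g
          simp [cmat_cons, Matrix.mul_apply, Fin.sum_univ_two, fmat, addB, h1 g, hl.val_zero]
        rw [e] at h3 ⊢
        exact h2 h3 g
    | mul hl hr =>
      obtain ⟨h1, h2⟩ := ih hr hok.2.1
      have e : ∀ g, cmat ((fun a b c => mulB a c b, l) :: C) g 1 1 =
          l.val g 1 * cmat C g 1 1 := by
        intro g
        simp [cmat_cons, Matrix.mul_apply, Fin.sum_univ_two, fmat, mulB, h1 g]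
      constructor
      · intro g
        simp [cmat_cons, Matrix.mul_apply, Fin.sum_univ_two, fmat, mulB, h1 g, hl.val_zero]
      · intro h3 g
        rw [e, mul_eq_zero] at h3
        rw [e]
        rcases h3 with h3 | h3
        · rw [hok.2.2.1 h3 g, zero_mul]
        · rw [h2 h3 g, mul_zero]

theorem Aff.sub {T u : Prog ℚ 2 n} {D : List (Frame ℚ 2 n)} (hT : Aff T) (h : Path T D u) :
    Aff u := by
  induction h with
  | nil T => exact hT
  | left r h ih => cases hT with
    | add hl hr => exact ih hl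
    | mul hl hr => exact ih hl
  | right l h ih => cases hT with
    | add hl hr => exact ih hr
    | mul hl hr => exact ih hr

theorem Ok.sub {γ : Fin n → ℚ} {T u : Prog ℚ 2 n} {D : List (Frame ℚ 2 n)} (hT : Ok γ T)
    (h : Path T D u) : Ok γ u := by
  induction h with
  | nil T => exact hT
  | left r h ih => exact ih hT.1
  | right l h ih => exact ih hT.2.1

theorem rank_two_le (M M' : Matrix (Fin 2) (Fin 2) ℚ) (h0 : M 0 0 = 1 ∧ M 0 1 = 0)
    (h0' : M' 0 0 = 1 ∧ M' 0 1 = 0) (h : M 1 1 = 0 → M' 1 1 = 0) : M'.rank ≤ M.rank := by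
  by_cases h1 : M 1 1 = 0
  · have hM' : M'.rank ≤ 1 := by
      have e : M' = Matrix.vecMulVec ![1, M' 1 0] ![1, 0] := by
        ext a b
        fin_cases a <;> fin_cases b <;> simp [Matrix.vecMulVec, h0'.1, h0'.2, h h1]
      rw [e]
      exact Matrix.rank_vecMulVec_le _ _
    have hM : 1 ≤ M.rank := by
      apply Pool.Agent.Helper5.le_rank_of_det_ne_zero (R := 1) (Matrix.of fun _ b => if b = 0 then 1 else 0)
        (Matrix.of fun a _ => if a = 0 then 1 else 0)
      rw [Matrix.det_fin_one]
      simp [Matrix.mul_apply, Fin.sum_univ_two, h0.1]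
    omega
  · have h5 : 2 ≤ M.rank := by
      apply Pool.Agent.Helper5.le_rank_of_det_ne_zero (R := 2) 1 1
      rw [Matrix.one_mul, Matrix.mul_one, Matrix.det_fin_two, h0.1, h0.2]
      simpa using h1
    refine le_trans ?_ h5
    simpa using Matrix.rank_le_width M'

theorem allGood_of_ok {γ : Fin n → ℚ} {T : Prog ℚ 2 n} (hT : Aff T) (hok : Ok γ T) :
    AllGood γ T := by
  rintro D ⟨C0, v, u, h1, h2⟩ g'
  obtain ⟨h3, h4⟩ := path_aff (hT.sub h1) (hok.sub h1) h2
  exact rank_two_le _ _ (h3 γ) (h3 g') fun h => h4 h g'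

end ProgNear

end Pool.Agent.Helper6.WB
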